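import Pool.Agent.H.MP_ac3185_nt.helper85.Defs
import Pool.Agent.H.MP_ac3185_nt.V2.Defs

/-! Definitions for the theorem on the growth of the rank in extensions of degree prime to `p`. -/

set_option autoImplicit false

open CategoryTheory AlgebraicGeometry NumberField IsDedekindDomain
open scoped MonObj

namespace Pool.Agent.H.MP_ac3185_nt

universe u

section field

variable {K : Type u} [Field K]

/-- Let `f : B → C` be an isogeny with kernel of order `p` in `B(M)`. If `f(x)` is a point of `C(L)`,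
so that `L M(x) = L M(a ^ (1/p))` for some `a` in `L M`, then the valuation of `a` at the place of
`L M` below `𝔓` is divisible by `p`. Example: `B` has good reduction over `L M` at this place. -/
def ValFibres (p : ℕ) (L M : IntermediateField K (AlgebraicClosure K)) {B C : Over (Spec (.of K))}
    [GrpObj B] [IsAbVar B] [GrpObj C] [IsAbVar C] (f : B ⟶ C)
    (𝔓 : Ideal (𝓞 (AlgebraicClosure K))) : Prop :=
  ∀ (x : Pts B (AlgebraicClosure K)) (z : AlgebraicClosure K), z ≠ 0 → z ^ p ∈ L ⊔ M →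
    (∀ s ∈ L.fixingSubgroup, act C s (onPts f x) = onPts f x) →
    (∀ s ∈ (L ⊔ M).fixingSubgroup, act B s x = x ↔ s z = z) → ValRoot p (L ⊔ M) 𝔓 (z ^ p)

/-- The elements of `X` lie in at most `n` cosets of `M^* (L M)^{*p}`. -/
def ClassBound (p : ℕ) (L M : IntermediateField K (AlgebraicClosure K))
    (X : Set (AlgebraicClosure K)) (n : ℕ) : Prop :=
  ∃ Θ : Finset (AlgebraicClosure K), Θ.card ≤ n ∧
    ∀ a ∈ X, ∃ τ ∈ Θ, ∃ b ∈ M, ∃ z ∈ L ⊔ M, a = τ * (b * z ^ p)

/-- `C(L)` is the union of at most `n` cosets of `C(K) + f(B(L))`. -/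
def CosetBound (L : IntermediateField K (AlgebraicClosure K)) {B C : Over (Spec (.of K))}
    [GrpObj B] [IsAbVar B] [GrpObj C] [IsAbVar C] (f : B ⟶ C) (n : ℕ) : Prop :=
  ∃ T : Finset (Pts C (AlgebraicClosure K)), T.card ≤ n ∧
    (∀ t ∈ T, ∀ s ∈ L.fixingSubgroup, act C s t = t) ∧
    ∀ y, (∀ s ∈ L.fixingSubgroup, act C s y = y) → ∃ t ∈ T, ∃ y₀ x,
      (∀ s, act C s y₀ = y₀) ∧ (∀ s ∈ L.fixingSubgroup, act B s x = x) ∧
      y = t + (y₀ + onPts f x)

end field

section numberField

variable {K : Type u} [Field K] [NumberField K]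

/-- The `a ≠ 0` in the `θ`-eigenspace of `(L M)^*` modulo `p`-th powers, such that
`L M(a ^ (1/p)) / L M` is unramified at the places above `T` and at the places which lie neither
above `p` nor above `S`, the valuations of `a` at the places which lie above `p` and not above `T` or
`S` are divisible by `p`, and `a` is positive at the real places of `L M` above the embeddings of `K`
in `R`. (For odd `p` there are no real places.) -/
def selFor (p : ℕ) (L M : IntermediateField K (AlgebraicClosure K))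
    (T S : Set (HeightOneSpectrum (𝓞 K))) (R : Set (K →+* ℂ)) {B C : Over (Spec (.of K))}
    [GrpObj B] [IsAbVar B] [GrpObj C] [IsAbVar C] (f : B ⟶ C) : Set (AlgebraicClosure K) :=
  {a | a ∈ L ⊔ M ∧ a ≠ 0 ∧ Eigen p L M f a ∧
    (∀ v 𝔓, Above 𝔓 v → v ∈ T ∨ (v ∉ S ∧ (p : 𝓞 K) ∉ v.asIdeal) → UnrRoot p (L ⊔ M) 𝔓 a) ∧
    (∀ v 𝔓, Above 𝔓 v → v ∉ T → v ∉ S → (p : 𝓞 K) ∈ v.asIdeal → ValRoot p (L ⊔ M) 𝔓 a) ∧
    ∀ e : AlgebraicClosure K →+* ℂ, e.comp (algebraMap K (AlgebraicClosure K)) ∈ R →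
      (∀ x ∈ L ⊔ M, starRingEnd ℂ (e x) = e x) → ∃ t : ℝ, 0 < t ∧ e a = t}

/-- `f : B → C` is an isogeny with cyclic kernel of order `p`, consisting of points of `B(M)`, with
these properties: over `M` its kernel is etale at the places in `T`; at the places outside `T` and
`S` its fibres have valuations divisible by `p`, or there is one place of `L K(θ)` above each place of
`K(θ)`, or, if the place does not lie above `p`, the kernel is etale over `M`; if `f(x)` is fixed by a
complex conjugation above an embedding in `R`, then so is `x`. -/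
structure StepP (p : ℕ) (L M : IntermediateField K (AlgebraicClosure K))
    (T S : Set (HeightOneSpectrum (𝓞 K))) (R : Set (K →+* ℂ)) {B C : Over (Spec (.of K))}
    [GrpObj B] [IsAbVar B] [GrpObj C] [IsAbVar C] (f : B ⟶ C) : Prop where
  hom : IsMonHom f
  surj : ∀ y, ∃ x, onPts f x = y
  ker : ∃ t, t ≠ 0 ∧ p • t = 0 ∧ ∀ x, onPts f x = 0 ↔ ∃ j : ℕ, x = j • t
  fixed : ∀ s ∈ M.fixingSubgroup, ∀ x, onPts f x = 0 → act B s x = x
  etale : ∀ v ∈ T, ∀ 𝔓, Above 𝔓 v → EtaleOver M f 𝔓
  other : ∀ v ∉ T, v ∉ S → ∀ 𝔓, Above 𝔓 v → ValFibres p L M f 𝔓 ∨ OnePlaceFor p L f 𝔓 ∨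
    ((p : 𝓞 K) ∉ v.asIdeal ∧ EtaleOver M f 𝔓)
  real : ∀ (e : AlgebraicClosure K →+* ℂ) (s : AlgebraicClosure K ≃ₐ[K] AlgebraicClosure K),
    e.comp (algebraMap K (AlgebraicClosure K)) ∈ R → (∀ z, e (s z) = starRingEnd ℂ (e z)) →
    ∀ x, act C s (onPts f x) = onPts f x → act B s x = x

/-- `ChainP p L M A B h b`: the homomorphism `h : A → B` is a composition of isogenies `f` of degree
`p` over `K` satisfying `StepP p L M T S R f` (where `T`, `S`, `R` depend on `f`), and `b` is the sum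
over these `f` of the numbers `ρ`, where the elements of `selFor p L M T S R f` lie in at most
`p ^ ρ` cosets of `M^* (L M)^{*p}`. -/
inductive ChainP (p : ℕ) (L M : IntermediateField K (AlgebraicClosure K))
    (A : Over (Spec (.of K))) [GrpObj A] [IsAbVar A] :
    (B : Over (Spec (.of K))) → [GrpObj B] → [IsAbVar B] → (A ⟶ B) → ℕ → Prop
  | refl : ChainP p L M A A (𝟙 A) 0
  | step {B C : Over (Spec (.of K))} [GrpObj B] [IsAbVar B] [GrpObj C] [IsAbVar C] (h : A ⟶ B)
      (f : B ⟶ C) (b ρ : ℕ) (T S : Set (HeightOneSpectrum (𝓞 K))) (R : Set (K →+* ℂ)) :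
      ChainP p L M A B h b → StepP p L M T S R f →
      ClassBound p L M (selFor p L M T S R f) (p ^ ρ) → ChainP p L M A C (h ≫ f) (b + ρ)

end numberField

end Pool.Agent.H.MP_ac3185_nt
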