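import Pool.Agent.H.MP_ac3185_nt.helper85.Val

/-! `StepFor p L M f` implies `C(L) = C(K) + f(B(L))`. -/

set_option autoImplicit false

open CategoryTheory AlgebraicGeometry NumberField IsDedekindDomain
open scoped MonObj

namespace Pool.Agent.H.MP_ac3185_nt

universe u

section split

variable {K : Type u} [Field K] [NumberField K]

/-- The other form of `wp_cop`. -/
theorem wp_cop' (L M : IntermediateField K (AlgebraicClosure K)) [FiniteDimensional K L]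
    [FiniteDimensional K M] [Normal K M] (h : L ⊓ M = ⊥)
    (s : AlgebraicClosure K ≃ₐ[K] AlgebraicClosure K) :
    ∃ g ∈ L.fixingSubgroup, g⁻¹ * s ∈ M.fixingSubgroup := by
  obtain ⟨t, ht, hts⟩ := wp_cop L M h s⁻¹
  have hM := wp_normal M
  refine ⟨(t⁻¹ * s⁻¹)⁻¹, inv_mem hts, ?_⟩
  have h1 : (t⁻¹ * s⁻¹)⁻¹⁻¹ * s = t⁻¹ := by group
  rw [h1]
  exact inv_mem ht

theorem wp_split (p : ℕ) (hp : p.Prime) (L M : IntermediateField K (AlgebraicClosure K))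
    [FiniteDimensional K L] [FiniteDimensional K M] [Normal K M] (hLM : L ⊓ M = ⊥)
    (hpL : ¬ p ∣ Module.finrank K L) (hpM : ¬ p ∣ Module.finrank K M)
    (hμ : ∀ z : AlgebraicClosure K, z ^ p = 1 → z ∈ M)
    {B C : Over (Spec (.of K))} [GrpObj B] [IsAbVar B] [GrpObj C] [IsAbVar C] (f : B ⟶ C)
    (hf : StepFor p L M f) : SplitPts L f := by
  classical
  intro y hy
  obtain ⟨b, rfl⟩ := hf.surj y
  obtain ⟨t, ht0, htp, hker⟩ := hf.ker
  have hmon := hf.hom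
  have hM := wp_normal M
  have : NeZero p := ⟨hp.ne_zero⟩
  have : NeZero ((p : ℕ) : AlgebraicClosure K) := ⟨Nat.cast_ne_zero.2 hp.ne_zero⟩
  obtain ⟨ζ, hζ⟩ := HasEnoughRootsOfUnity.exists_primitiveRoot (AlgebraicClosure K) p
  have hζM : ζ ∈ M := hμ ζ hζ.pow_eq_one
  have hft : onPts f t = 0 := (hker t).2 ⟨1, (one_nsmul t).symm⟩
  have htM : ∀ s ∈ M.fixingSubgroup, act B s t = t := fun s hs => hf.fixed s hs t hft
  have : FiniteDimensional K (L ⊔ M : IntermediateField K (AlgebraicClosure K)) :=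
    IntermediateField.finiteDimensional_sup L M
  obtain ⟨r, hr0, hr⟩ := wc_root hp hmon ht0 htp hker hζ (L ⊔ M)
    ((le_sup_right : M ≤ L ⊔ M) hζM) (fun s hs => by
      rw [IntermediateField.fixingSubgroup_sup] at hs
      exact htM s hs.2) b (fun s hs => by
      rw [IntermediateField.fixingSubgroup_sup] at hs
      exact hy s hs.1)
  have hr' : ∀ s ∈ L.fixingSubgroup, s ∈ M.fixingSubgroup → Mt t ζ s b r := by
    intro s hs hs'
    apply hr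
    rw [IntermediateField.fixingSubgroup_sup]
    exact ⟨hs, hs'⟩
  have hfi := vn_finiteIndex L
  let _ := L.fixingSubgroup.fintypeQuotientOfFiniteIndex
  obtain ⟨T, hT⟩ := wp_reps L.fixingSubgroup M.fixingSubgroup (wp_cop L M hLM)
  obtain ⟨m, e, hme⟩ := wd_inv hp hpL
  have hζN : ∀ s ∈ M.fixingSubgroup, s ζ = ζ := fun s hs => vn_fix M hζM hs
  set b' := b + m • ∑ q, act B (T q) b with hb'
  set ρ := r * (∏ q, (T q) r) ^ m with hρ
  have hmt : ∀ s ∈ L.fixingSubgroup, s ∈ M.fixingSubgroup → Mt t ζ s b' ρ :=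
    wd_match T hT htM hζN b r hr' m
  have hρ0 : ρ ≠ 0 := by
    refine mul_ne_zero hr0 (pow_ne_zero _ (Finset.prod_ne_zero_iff.2 fun q _ => ?_))
    intro h
    exact hr0 (by simpa using h)
  have hfb' : onPts f b' = onPts f b + m • ∑ q, act C (T q) (onPts f b) := by
    rw [hb', vh_add f hmon, wd_fnsmul hmon, wd_fsum hmon]
  have hTrP : ∀ s, act C s (∑ q, act C (T q) (onPts f b)) = ∑ q, act C (T q) (onPts f b) :=
    fun s => wf_sum T _ s fun q => hy _ (wp_perm _ T (fun q => (hT q).1) s q)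
  have hb'f : ∀ s ∈ L.fixingSubgroup, act C s (onPts f b') = onPts f b' := by
    intro s hs
    rw [hfb', va_add, wp_act_nsmul, hTrP, hy s hs]
  have hroot : ∀ (x : Pts B (AlgebraicClosure K)) (q : AlgebraicClosure K),
      (∀ s ∈ L.fixingSubgroup, s ∈ M.fixingSubgroup → Mt t ζ s x q) → q ^ p ∈ L ⊔ M := by
    intro x q hq
    apply vn_mem
    intro s hs
    rw [IntermediateField.fixingSubgroup_sup] at hs
    obtain ⟨j, -, hj⟩ := hq s hs.1 hs.2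
    rw [map_pow, hj, mul_pow, ← pow_mul, mul_comm j p, pow_mul, hζ.pow_eq_one, one_pow, one_mul]
  have haLM : r ^ p ∈ L ⊔ M := hroot b r hr'
  have hcLM : ρ ^ p ∈ L ⊔ M := hroot b' ρ hmt
  have ha : Eigen p L M f (r ^ p) :=
    wc_eigen hp hmon ht0 htp hker hζ L M hM htM b r hr0 hy hr'
  have hc : Eigen p L M f (ρ ^ p) :=
    wc_eigen hp hmon ht0 htp hker hζ L M hM htM b' ρ hρ0 hb'f hmt
  have hc0 : ρ ^ p ≠ 0 := pow_ne_zero _ hρ0
  have het : ∀ 𝔓 : Ideal (𝓞 (AlgebraicClosure K)), EtaleOver M f 𝔓 →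
      UnrRoot p (L ⊔ M) 𝔓 (ρ ^ p) := fun 𝔓 h𝔓 =>
    wv_etale hp hmon ht0 htp hζ L M hζM b' ρ hρ0 hb'f hmt 𝔓 h𝔓
  have hval : ∀ 𝔓 : Ideal (𝓞 (AlgebraicClosure K)), FinPrime 𝔓 → OnePlaceFor p L f 𝔓 →
      ValRoot p (L ⊔ M) 𝔓 (ρ ^ p) := fun 𝔓 h𝔓 hone =>
    wv_one hp hker hζ L M hM hμ htM T hT r hr0 haLM ha m e hme h𝔓 hone
  have hunr : ∀ 𝔓 : Ideal (𝓞 (AlgebraicClosure K)), FinPrime 𝔓 →
      (p : 𝓞 (AlgebraicClosure K)) ∉ 𝔓 → UnrRoot p (L ⊔ M) 𝔓 (ρ ^ p) := by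
    intro 𝔓 h𝔓 hpP
    rcases hf.prime 𝔓 h𝔓 hpP with h | h
    · exact het 𝔓 h
    · exact wv_unr hp hζ (L ⊔ M) 𝔓 h𝔓 hpP _ hcLM (hval 𝔓 h𝔓 h)
  have hcl : ∃ b₀ ∈ M, ∃ z ∈ L ⊔ M, ρ ^ p = b₀ * z ^ p := by
    rcases hf.type with ⟨h, hcl⟩ | ⟨h, hcl⟩
    · refine hcl _ hcLM hc0 hc fun 𝔓 h𝔓 => ?_
      by_cases hpP : (p : 𝓞 (AlgebraicClosure K)) ∈ 𝔓
      · exact het 𝔓 (h 𝔓 h𝔓 hpP)
      · exact hunr 𝔓 h𝔓 hpP
    · exact hcl _ hcLM hc0 hc hunr (fun 𝔓 h𝔓 hpP => hval 𝔓 h𝔓 (h 𝔓 h𝔓 hpP)) fun hre =>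
        wv_pos hp ht0 htp hζ L M hζM b' ρ hρ0 hb'f hmt hre
  exact wd_main hp hmon ht0 htp hker hζ L M hpL hpM T hT (wp_cop' L M hLM) htM hζM b hy r hr0 hr'
    m e hme b' hb' ρ hρ hcl

/-- The decomposition `C(L) = C(K) + f(B(L))` for all steps `f` gives the decomposition
`B(L) = B(K) + h(A(L))` for all compositions `h` of steps. -/
theorem wp_chain (p : ℕ) (hp : p.Prime) (L M : IntermediateField K (AlgebraicClosure K))
    [FiniteDimensional K L] [FiniteDimensional K M] [Normal K M] (hLM : L ⊓ M = ⊥)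
    (hpL : ¬ p ∣ Module.finrank K L) (hpM : ¬ p ∣ Module.finrank K M)
    (hμ : ∀ z : AlgebraicClosure K, z ^ p = 1 → z ∈ M)
    (A : Over (Spec (.of K))) [GrpObj A] [IsAbVar A]
    {B : Over (Spec (.of K))} [GrpObj B] [IsAbVar B] (h : A ⟶ B) (hh : StepsFor p L M A B h) :
    SplitPts L h := by
  induction hh with
  | refl =>
    intro y hy
    refine ⟨0, y, fun s => map_zero (galHom A s), hy, ?_⟩
    rw [vc_onPts_id, zero_add]
  | step h f _ hf ih =>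
    intro y hy
    obtain ⟨y0, x, hy0, hx, rfl⟩ := wp_split p hp L M hLM hpL hpM hμ f hf y hy
    obtain ⟨x0, z, hx0, hz, rfl⟩ := ih x hx
    have := hf.hom
    refine ⟨y0 + onPts f x0, z, fun s => ?_, hz, ?_⟩
    · rw [vc_act_add, hy0, vc_onPts_act, hx0]
    · rw [vc_onPts_add, vc_onPts_comp, add_assoc]

end split

end Pool.Agent.H.MP_ac3185_nt
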