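import Pool.Agent.H.MP_ac3185_nt.V2.Count
import Pool.Agent.H.MP_ac3185_nt.helper85.Split
import Pool.Agent.H.MP_ac3185_nt.helper85.DefsG

/-! One step: the number of cosets of `C(K) + f(B(L))` in `C(L)`. -/

set_option autoImplicit false

open CategoryTheory AlgebraicGeometry NumberField IsDedekindDomain
open scoped MonObj

namespace Pool.Agent.H.MP_ac3185_nt

universe u

section aux

variable {K : Type u} [Field K] {B C : Over (Spec (.of K))} [GrpObj B] [IsAbVar B]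
  [GrpObj C] [IsAbVar C] {f : B ⟶ C} {p : ℕ} {t : Pts B (AlgebraicClosure K)}
  {ζ : AlgebraicClosure K}

/-- The inverse pair. -/
theorem wg_neg (hp : p.Prime) (htp : p • t = 0) (hζ : IsPrimitiveRoot ζ p)
    {s : AlgebraicClosure K ≃ₐ[K] AlgebraicClosure K} {x : Pts B (AlgebraicClosure K)}
    {r : AlgebraicClosure K} (h : Mt t ζ s x r) : Mt t ζ s (-x) r⁻¹ := by
  obtain ⟨j, hj, hj'⟩ := h
  obtain ⟨q, hq⟩ : ∃ q, p = q + 1 := ⟨p - 1, by have := hp.pos; omega⟩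
  have h1 : (q * j) • t + j • t = 0 := by
    rw [← add_nsmul]
    have h2 : q * j + j = j * p := by rw [hq]; ring
    rw [h2, mul_nsmul', htp, nsmul_zero]
  have h2 : ζ ^ (q * j) * ζ ^ j = 1 := by
    rw [← pow_add]
    have h3 : q * j + j = p * j := by rw [hq]; ring
    rw [h3, pow_mul, hζ.pow_eq_one, one_pow]
  refine ⟨q * j, ?_, ?_⟩
  · have h3 : act B s (-x) = -act B s x := map_neg (galHom B s) x
    rw [h3, hj, neg_add, ← eq_neg_of_add_eq_zero_left h1]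
  · rw [map_inv₀, hj', mul_inv, ← eq_inv_of_mul_eq_one_left h2]

/-- The Kummer generator is positive at the real places above `R`. -/
theorem wg_pos (hp : p.Prime) (ht0 : t ≠ 0) (htp : p • t = 0)
    (hζ : IsPrimitiveRoot ζ p) (L M : IntermediateField K (AlgebraicClosure K)) (hζM : ζ ∈ M)
    (b : Pts B (AlgebraicClosure K)) (ρ : AlgebraicClosure K) (hρ0 : ρ ≠ 0)
    (hb : ∀ s ∈ L.fixingSubgroup, act C s (onPts f b) = onPts f b)
    (hr : ∀ s ∈ L.fixingSubgroup, s ∈ M.fixingSubgroup → Mt t ζ s b ρ)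
    (e : AlgebraicClosure K →+* ℂ) (he : ∀ x ∈ L ⊔ M, starRingEnd ℂ (e x) = e x)
    (hreal : ∀ s : AlgebraicClosure K ≃ₐ[K] AlgebraicClosure K,
      (∀ z, e (s z) = starRingEnd ℂ (e z)) →
      ∀ x, act C s (onPts f x) = onPts f x → act B s x = x) :
    ∃ c : ℝ, 0 < c ∧ e (ρ ^ p) = c := by
  obtain ⟨s, hs⟩ := v2s_conj e (fun x => he _ (IntermediateField.algebraMap_mem _ x))
  have hsF : s ∈ (L ⊔ M).fixingSubgroup := by
    rw [IntermediateField.mem_fixingSubgroup_iff]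
    intro x hx
    apply e.injective
    rw [hs, he x hx]
  rw [IntermediateField.fixingSubgroup_sup] at hsF
  have h1 : act B s b = b := hreal s hs b (hb s hsF.1)
  have h2 : s ρ = ρ := (wc_iff hp ht0 htp hζ hρ0 (hr s hsF.1 hsF.2)).1 h1
  have hre : ∀ x, s x = x → ∃ c : ℝ, e x = c := by
    intro x hx
    have h3 := hs x
    rw [hx] at h3
    exact ⟨(e x).re, (Complex.conj_eq_iff_re.1 h3.symm).symm⟩
  obtain ⟨c, hc⟩ := hre ρ h2
  have hc0 : c ≠ 0 := by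
    rintro rfl
    rw [Complex.ofReal_zero] at hc
    exact hρ0 ((map_eq_zero e).1 hc)
  rcases hp.eq_two_or_odd' with rfl | hodd
  · refine ⟨c ^ 2, by positivity, ?_⟩
    rw [map_pow, hc]
    push_cast
    ring
  · exfalso
    obtain ⟨d, hd⟩ := hre ζ (vn_fix M hζM hsF.2)
    have h3 : d ^ p = 1 := by
      have h4 : (e ζ) ^ p = 1 := by rw [← map_pow, hζ.pow_eq_one, map_one]
      rw [hd] at h4
      exact_mod_cast h4
    have h5 : d = 1 := by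
      have h6 : d ^ p = 1 ^ p := by rw [h3, one_pow]
      exact hodd.strictMono_pow.injective h6
    rw [h5, Complex.ofReal_one] at hd
    exact hζ.ne_one hp.one_lt (e.injective (by rw [hd, map_one]))

end aux

section step

variable {K : Type u} [Field K] [NumberField K]

theorem wg_p_mem {p : ℕ} {𝔓 : Ideal (𝓞 (AlgebraicClosure K))} {v : HeightOneSpectrum (𝓞 K)}
    (h : Above 𝔓 v) : (p : 𝓞 (AlgebraicClosure K)) ∈ 𝔓 ↔ (p : 𝓞 K) ∈ v.asIdeal := by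
  rw [← h.2, Ideal.mem_comap, map_natCast]

/-- One step. -/
theorem wg_step (p : ℕ) (hp : p.Prime) (L M : IntermediateField K (AlgebraicClosure K))
    [FiniteDimensional K L] [FiniteDimensional K M] [Normal K M] (hLM : L ⊓ M = ⊥)
    (hpL : ¬ p ∣ Module.finrank K L) (hpM : ¬ p ∣ Module.finrank K M)
    (hμ : ∀ z : AlgebraicClosure K, z ^ p = 1 → z ∈ M)
    (T S : Set (HeightOneSpectrum (𝓞 K))) (R : Set (K →+* ℂ))
    {B C : Over (Spec (.of K))} [GrpObj B] [IsAbVar B] [GrpObj C] [IsAbVar C] (f : B ⟶ C)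
    (hf : StepP p L M T S R f) (n : ℕ) (hn : ClassBound p L M (selFor p L M T S R f) n) :
    CosetBound L f n := by
  classical
  obtain ⟨t, ht0, htp, hker⟩ := hf.ker
  have hmon := hf.hom
  have hM := wp_normal M
  have : NeZero p := ⟨hp.ne_zero⟩
  have : NeZero ((p : ℕ) : AlgebraicClosure K) := ⟨Nat.cast_ne_zero.2 hp.ne_zero⟩
  obtain ⟨ζ, hζ⟩ := HasEnoughRootsOfUnity.exists_primitiveRoot (AlgebraicClosure K) p
  have hζM : ζ ∈ M := hμ ζ hζ.pow_eq_one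
  have hft : onPts f t = 0 := (hker t).2 ⟨1, (one_nsmul t).symm⟩
  have htM : ∀ s ∈ M.fixingSubgroup, act B s t = t := fun s hs => hf.fixed s hs t hft
  have : FiniteDimensional K (L ⊔ M : IntermediateField K (AlgebraicClosure K)) :=
    IntermediateField.finiteDimensional_sup L M
  have hfi := vn_finiteIndex L
  let _ := L.fixingSubgroup.fintypeQuotientOfFiniteIndex
  obtain ⟨T', hT'⟩ := wp_reps L.fixingSubgroup M.fixingSubgroup (wp_cop L M hLM)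
  obtain ⟨m, e, hme⟩ := wd_inv hp hpL
  have hζN : ∀ s ∈ M.fixingSubgroup, s ζ = ζ := fun s hs => vn_fix M hζM hs
  -- the pair attached to a point
  have hpair : ∀ y, (∀ s ∈ L.fixingSubgroup, act C s y = y) → ∃ (b : Pts B (AlgebraicClosure K))
      (r : AlgebraicClosure K), onPts f b = y ∧ r ≠ 0 ∧
      (∀ s ∈ L.fixingSubgroup, s ∈ M.fixingSubgroup → Mt t ζ s b r) ∧
      (r * (∏ q, (T' q) r) ^ m) ^ p ∈ selFor p L M T S R f := by
    intro y hy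
    obtain ⟨b, rfl⟩ := hf.surj y
    obtain ⟨r, hr0, hr⟩ := wc_root hp hmon ht0 htp hker hζ (L ⊔ M)
      ((le_sup_right : M ≤ L ⊔ M) hζM) (fun s hs => by
        rw [IntermediateField.fixingSubgroup_sup] at hs
        exact htM s hs.2) b (fun s hs => by
        rw [IntermediateField.fixingSubgroup_sup] at hs
        exact hy s hs.1)
    have hr' : ∀ s ∈ L.fixingSubgroup, s ∈ M.fixingSubgroup → Mt t ζ s b r := by
      intro s hs hs'
      apply hr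
      rw [IntermediateField.fixingSubgroup_sup]
      exact ⟨hs, hs'⟩
    refine ⟨b, r, rfl, hr0, hr', ?_⟩
    set b' := b + m • ∑ q, act B (T' q) b with hb'
    set ρ := r * (∏ q, (T' q) r) ^ m with hρ
    have hmt : ∀ s ∈ L.fixingSubgroup, s ∈ M.fixingSubgroup → Mt t ζ s b' ρ :=
      wd_match T' hT' htM hζN b r hr' m
    have hρ0 : ρ ≠ 0 := by
      refine mul_ne_zero hr0 (pow_ne_zero _ (Finset.prod_ne_zero_iff.2 fun q _ => ?_))
      intro h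
      exact hr0 (by simpa using h)
    have hfb' : onPts f b' = onPts f b + m • ∑ q, act C (T' q) (onPts f b) := by
      rw [hb', vh_add f hmon, wd_fnsmul hmon, wd_fsum hmon]
    have hTrP : ∀ s, act C s (∑ q, act C (T' q) (onPts f b)) =
        ∑ q, act C (T' q) (onPts f b) :=
      fun s => wf_sum T' _ s fun q => hy _ (wp_perm _ T' (fun q => (hT' q).1) s q)
    have hb'f : ∀ s ∈ L.fixingSubgroup, act C s (onPts f b') = onPts f b' := by
      intro s hs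
      rw [hfb', va_add, wp_act_nsmul, hTrP, hy s hs]
    have hroot : ∀ (x : Pts B (AlgebraicClosure K)) (q : AlgebraicClosure K),
        (∀ s ∈ L.fixingSubgroup, s ∈ M.fixingSubgroup → Mt t ζ s x q) → q ^ p ∈ L ⊔ M := by
      intro x q hq
      apply vn_mem
      intro s hs
      rw [IntermediateField.fixingSubgroup_sup] at hs
      obtain ⟨j, -, hj⟩ := hq s hs.1 hs.2
      rw [map_pow, hj, mul_pow, ← pow_mul, mul_comm j p, pow_mul, hζ.pow_eq_one, one_pow,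
        one_mul]
    have haLM : r ^ p ∈ L ⊔ M := hroot b r hr'
    have hcLM : ρ ^ p ∈ L ⊔ M := hroot b' ρ hmt
    have ha : Eigen p L M f (r ^ p) :=
      wc_eigen hp hmon ht0 htp hker hζ L M hM htM b r hr0 hy hr'
    have hc : Eigen p L M f (ρ ^ p) :=
      wc_eigen hp hmon ht0 htp hker hζ L M hM htM b' ρ hρ0 hb'f hmt
    have het : ∀ 𝔓 : Ideal (𝓞 (AlgebraicClosure K)), EtaleOver M f 𝔓 →
        UnrRoot p (L ⊔ M) 𝔓 (ρ ^ p) := fun 𝔓 h𝔓 =>
      wv_etale hp hmon ht0 htp hζ L M hζM b' ρ hρ0 hb'f hmt 𝔓 h𝔓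
    have hval : ∀ 𝔓 : Ideal (𝓞 (AlgebraicClosure K)), FinPrime 𝔓 →
        ValFibres p L M f 𝔓 ∨ OnePlaceFor p L f 𝔓 → ValRoot p (L ⊔ M) 𝔓 (ρ ^ p) := by
      intro 𝔓 h𝔓 h
      rcases h with h | h
      · refine h b' ρ hρ0 hcLM hb'f fun s hs => ?_
        rw [IntermediateField.fixingSubgroup_sup] at hs
        exact wc_iff hp ht0 htp hζ hρ0 (hmt s hs.1 hs.2)
      · exact wv_one hp hker hζ L M hM hμ htM T' hT' r hr0 haLM ha m e hme h𝔓 h
    have hunr : ∀ v 𝔓, Above 𝔓 v → v ∉ T → v ∉ S → (p : 𝓞 K) ∉ v.asIdeal →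
        UnrRoot p (L ⊔ M) 𝔓 (ρ ^ p) := by
      intro v 𝔓 hv hvT hvS hpv
      have h𝔓 := vr_finPrime v 𝔓 hv
      have hpP : (p : 𝓞 (AlgebraicClosure K)) ∉ 𝔓 := fun h => hpv ((wg_p_mem hv).1 h)
      rcases hf.other v hvT hvS 𝔓 hv with h | h | h
      · exact wv_unr hp hζ (L ⊔ M) 𝔓 h𝔓 hpP _ hcLM (hval 𝔓 h𝔓 (Or.inl h))
      · exact wv_unr hp hζ (L ⊔ M) 𝔓 h𝔓 hpP _ hcLM (hval 𝔓 h𝔓 (Or.inr h))
      · exact het 𝔓 h.2
    refine ⟨hcLM, pow_ne_zero _ hρ0, hc, ?_, ?_, ?_⟩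
    · intro v 𝔓 hv hcase
      by_cases hvT : v ∈ T
      · exact het 𝔓 (hf.etale v hvT 𝔓 hv)
      · obtain ⟨hvS, hpv⟩ := hcase.resolve_left hvT
        exact hunr v 𝔓 hv hvT hvS hpv
    · intro v 𝔓 hv hvT hvS hpv
      have h𝔓 := vr_finPrime v 𝔓 hv
      rcases hf.other v hvT hvS 𝔓 hv with h | h | h
      · exact hval 𝔓 h𝔓 (Or.inl h)
      · exact hval 𝔓 h𝔓 (Or.inr h)
      · exact absurd hpv h.1
    · intro e' heR he
      exact wg_pos hp ht0 htp hζ L M hζM b' ρ hρ0 hb'f hmt e' he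
        (fun s hs => hf.real e' s heR hs)
  obtain ⟨Θ, hΘ, hcov⟩ := hn
  -- two points with the same class
  have hdiff : ∀ y₁ y₂ : Pts C (AlgebraicClosure K), ∀ b₁ b₂ : Pts B (AlgebraicClosure K),
      ∀ r₁ r₂ : AlgebraicClosure K,
      (∀ s ∈ L.fixingSubgroup, act C s y₁ = y₁) → (∀ s ∈ L.fixingSubgroup, act C s y₂ = y₂) →
      onPts f b₁ = y₁ → onPts f b₂ = y₂ → r₁ ≠ 0 → r₂ ≠ 0 →
      (∀ s ∈ L.fixingSubgroup, s ∈ M.fixingSubgroup → Mt t ζ s b₁ r₁) →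
      (∀ s ∈ L.fixingSubgroup, s ∈ M.fixingSubgroup → Mt t ζ s b₂ r₂) →
      (∃ τ, ∃ β₁ ∈ M, ∃ β₂ ∈ M, ∃ z₁ ∈ L ⊔ M, ∃ z₂ ∈ L ⊔ M,
        (r₁ * (∏ q, (T' q) r₁) ^ m) ^ p = τ * (β₁ * z₁ ^ p) ∧
        (r₂ * (∏ q, (T' q) r₂) ^ m) ^ p = τ * (β₂ * z₂ ^ p)) →
      ∃ y₀ x, (∀ s, act C s y₀ = y₀) ∧ (∀ s ∈ L.fixingSubgroup, act B s x = x) ∧
        y₁ = y₂ + (y₀ + onPts f x) := by
    rintro y₁ y₂ b₁ b₂ r₁ r₂ hy₁ hy₂ rfl rfl hr₁ hr₂ hm₁ hm₂
      ⟨τ, β₁, hβ₁, β₂, hβ₂, z₁, hz₁, z₂, hz₂, e₁, e₂⟩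
    have hT0 : ∀ r : AlgebraicClosure K, r ≠ 0 → (∏ q, (T' q) r) ≠ 0 := by
      intro r hr
      refine Finset.prod_ne_zero_iff.2 fun q _ => ?_
      intro h
      exact hr (by simpa using h)
    have hmt : ∀ s ∈ L.fixingSubgroup, s ∈ M.fixingSubgroup →
        Mt t ζ s (b₁ + -b₂) (r₁ * r₂⁻¹) := fun s hs hs' =>
      wm_add (hm₁ s hs hs') (wg_neg hp htp hζ (hm₂ s hs hs'))
    have hfb : ∀ s ∈ L.fixingSubgroup, act C s (onPts f (b₁ + -b₂)) = onPts f (b₁ + -b₂) := by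
      intro s hs
      rw [← sub_eq_add_neg, vh_sub f hmon, va_sub, hy₁ s hs, hy₂ s hs]
    have hρ : r₁ * r₂⁻¹ * (∏ q, (T' q) (r₁ * r₂⁻¹)) ^ m =
        (r₁ * (∏ q, (T' q) r₁) ^ m) / (r₂ * (∏ q, (T' q) r₂) ^ m) := by
      have h1 : (∏ q, (T' q) (r₁ * r₂⁻¹)) = (∏ q, (T' q) r₁) / (∏ q, (T' q) r₂) := by
        rw [← Finset.prod_div_distrib]
        refine Finset.prod_congr rfl fun q _ => ?_
        rw [map_mul, map_inv₀, div_eq_mul_inv]
      rw [h1, div_pow]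
      have := hT0 r₂ hr₂
      field_simp
    have hρ₂ : r₂ * (∏ q, (T' q) r₂) ^ m ≠ 0 := mul_ne_zero hr₂ (pow_ne_zero _ (hT0 r₂ hr₂))
    have h0 : τ * (β₂ * z₂ ^ p) ≠ 0 := by
      rw [← e₂]
      exact pow_ne_zero _ hρ₂
    have hτ : τ ≠ 0 := left_ne_zero_of_mul h0
    have hβ0 : β₂ ≠ 0 := left_ne_zero_of_mul (right_ne_zero_of_mul h0)
    have hz0 : z₂ ^ p ≠ 0 := right_ne_zero_of_mul (right_ne_zero_of_mul h0)
    obtain ⟨y₀, x, h1, h2, h3⟩ := wd_main hp hmon ht0 htp hker hζ L M hpL hpM T' hT'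
      (wp_cop' L M hLM) htM hζM (b₁ + -b₂) hfb (r₁ * r₂⁻¹) (mul_ne_zero hr₁ (inv_ne_zero hr₂)) hmt
      m e hme _ rfl _ rfl ⟨β₁ / β₂, div_mem hβ₁ hβ₂, z₁ / z₂, div_mem hz₁ hz₂, by
        rw [hρ, div_pow, e₁, e₂, div_pow]
        field_simp⟩
    refine ⟨y₀, x, h1, h2, ?_⟩
    rw [← h3, ← sub_eq_add_neg, vh_sub f hmon]
    abel
  -- representatives
  choose b r hb hr0 hmt hsel using hpair
  have hcl : ∀ y (hy : ∀ s ∈ L.fixingSubgroup, act C s y = y), ∃ τ ∈ Θ, ∃ β ∈ M, ∃ z ∈ L ⊔ M,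
      (r y hy * (∏ q, (T' q) (r y hy)) ^ m) ^ p = τ * (β * z ^ p) := fun y hy =>
    hcov _ (hsel y hy)
  let F : AlgebraicClosure K → Pts C (AlgebraicClosure K) := fun τ =>
    if h : ∃ y, ∃ hy : (∀ s ∈ L.fixingSubgroup, act C s y = y), ∃ β ∈ M, ∃ z ∈ L ⊔ M,
      (r y hy * (∏ q, (T' q) (r y hy)) ^ m) ^ p = τ * (β * z ^ p) then h.choose else 0
  refine ⟨Θ.image F, Finset.card_image_le.trans hΘ, ?_, ?_⟩
  · intro y hy
    obtain ⟨τ, -, rfl⟩ := Finset.mem_image.1 hy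
    by_cases h : ∃ y, ∃ hy : (∀ s ∈ L.fixingSubgroup, act C s y = y), ∃ β ∈ M, ∃ z ∈ L ⊔ M,
        (r y hy * (∏ q, (T' q) (r y hy)) ^ m) ^ p = τ * (β * z ^ p)
    · have h1 : F τ = h.choose := dif_pos h
      rw [h1]
      exact h.choose_spec.choose
    · have h1 : F τ = 0 := dif_neg h
      rw [h1]
      exact fun s _ => map_zero (galHom C s)
  · intro y hy
    obtain ⟨τ, hτ, β, hβ, z, hz, he⟩ := hcl y hy
    have h : ∃ y, ∃ hy : (∀ s ∈ L.fixingSubgroup, act C s y = y), ∃ β ∈ M, ∃ z ∈ L ⊔ M,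
        (r y hy * (∏ q, (T' q) (r y hy)) ^ m) ^ p = τ * (β * z ^ p) := ⟨y, hy, β, hβ, z, hz, he⟩
    have h1 : F τ = h.choose := dif_pos h
    obtain ⟨hy', β', hβ', z', hz', he'⟩ := h.choose_spec
    refine ⟨F τ, Finset.mem_image_of_mem F hτ, ?_⟩
    rw [h1]
    exact hdiff y h.choose (b y hy) (b _ hy') (r y hy) (r _ hy') hy hy' (hb _ _) (hb _ _)
      (hr0 _ _) (hr0 _ _) (hmt _ _) (hmt _ _)
      ⟨τ, β, hβ, β', hβ', z, hz, z', hz', he, he'⟩

end step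

end Pool.Agent.H.MP_ac3185_nt
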