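import Pool.Agent.H.MP_ac3185_nt.V.DivPJ
import Pool.Agent.H.MP_ac3185_nt.V2.Main
import Pool.Agent.H.MP_ac3185_nt.helper85.StepG

/-! Composition of steps and the rank, for a prime `p`. -/

set_option autoImplicit false

open CategoryTheory AlgebraicGeometry NumberField IsDedekindDomain
open scoped MonObj

namespace Pool.Agent.H.MP_ac3185_nt

universe u

section group

/-- A finitely generated abelian group `M`, covered by at most `p ^ b` cosets of `N + p ^ m M`. -/
theorem wg_group {M : Type*} [AddCommGroup M] [Module.Finite ℤ M] (N : Submodule ℤ M) (p : ℕ)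
    (hp : p.Prime) (m b : ℕ) (T : Finset M) (hT : T.card ≤ p ^ b)
    (h : ∀ y, ∃ t ∈ T, ∃ n ∈ N, ∃ x, y = t + (n + (p ^ m : ℕ) • x)) :
    Module.finrank ℤ N ≤ Module.finrank ℤ M ∧
      m * (Module.finrank ℤ M - Module.finrank ℤ N) ≤ b := by
  classical
  have e1 : Module.finrank ℤ (M ⧸ N) + Module.finrank ℤ N = Module.finrank ℤ M :=
    Submodule.finrank_quotient_add_finrank N
  refine ⟨by omega, ?_⟩
  obtain ⟨r, hr⟩ : ∃ r, r = Module.finrank ℤ (M ⧸ N) := ⟨_, rfl⟩
  have e2 : Module.finrank ℤ M - Module.finrank ℤ N = r := by omega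
  rw [e2]
  have e3 : Module.finrank ℤ ((M ⧸ N) ⧸ Submodule.torsion ℤ (M ⧸ N)) = r := by
    rw [hr]
    unfold Module.finrank
    rw [rank_quotient_eq_of_le_torsion (le_refl _)]
  have hfree : Module.Free ℤ ((M ⧸ N) ⧸ Submodule.torsion ℤ (M ⧸ N)) := inferInstance
  let B := Module.finBasis ℤ ((M ⧸ N) ⧸ Submodule.torsion ℤ (M ⧸ N))
  let φ : M →ₗ[ℤ] (Fin (Module.finrank ℤ ((M ⧸ N) ⧸ Submodule.torsion ℤ (M ⧸ N))) → ℤ) :=
    (B.equivFun.toLinearMap).comp ((Submodule.mkQ _).comp (Submodule.mkQ N))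
  have hφ : Function.Surjective φ :=
    B.equivFun.surjective.comp ((Submodule.mkQ_surjective _).comp (Submodule.mkQ_surjective N))
  have hφN : ∀ n ∈ N, φ n = 0 := by
    intro n hn
    have h1 : Submodule.mkQ N n = 0 := by
      rw [Submodule.mkQ_apply]
      exact (Submodule.Quotient.mk_eq_zero N).2 hn
    show B.equivFun (Submodule.mkQ _ (Submodule.mkQ N n)) = 0
    rw [h1, map_zero, map_zero]
  let ψ : M → (Fin (Module.finrank ℤ ((M ⧸ N) ⧸ Submodule.torsion ℤ (M ⧸ N))) →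
      ZMod (p ^ m)) := fun y i => ((φ y i : ℤ) : ZMod (p ^ m))
  have hψ : Function.Surjective ψ := by
    intro z
    choose w hw using fun i => ZMod.intCast_surjective (z i)
    obtain ⟨y, hy⟩ := hφ w
    refine ⟨y, funext fun i => ?_⟩
    show ((φ y i : ℤ) : ZMod (p ^ m)) = z i
    rw [hy, hw]
  have hψT : ∀ z, ∃ t ∈ T, ψ t = z := by
    intro z
    obtain ⟨y, rfl⟩ := hψ z
    obtain ⟨t, ht, n, hn, x, rfl⟩ := h y
    refine ⟨t, ht, funext fun i => ?_⟩
    show ((φ t i : ℤ) : ZMod (p ^ m)) = ((φ (t + (n + (p ^ m : ℕ) • x)) i : ℤ) : ZMod (p ^ m))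
    rw [map_add, map_add, hφN n hn, map_nsmul, zero_add, Pi.add_apply, Pi.smul_apply,
      nsmul_eq_mul]
    push_cast
    have h2 : ((p : ZMod (p ^ m)) ^ m) = 0 := by
      have h3 := ZMod.natCast_self (p ^ m)
      push_cast at h3
      exact h3
    rw [h2, zero_mul, add_zero]
  have hcard : Nat.card (Fin (Module.finrank ℤ ((M ⧸ N) ⧸ Submodule.torsion ℤ (M ⧸ N))) →
      ZMod (p ^ m)) ≤ T.card := by
    have h1 : Function.Surjective fun t : T => ψ (t : M) := by
      intro z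
      obtain ⟨t, ht, h2⟩ := hψT z
      exact ⟨⟨t, ht⟩, h2⟩
    have h2 := Nat.card_le_card_of_surjective _ h1
    have h3 : Nat.card T = T.card := by simp
    rwa [h3] at h2
  rw [Nat.card_fun, Nat.card_zmod, Nat.card_fin, e3, ← pow_mul] at hcard
  exact (Nat.pow_le_pow_iff_right hp.one_lt).1 (hcard.trans hT)

/-- `N + p ^ k M`. -/
def wgPow {M : Type*} [AddCommGroup M] (p : ℕ) (N : AddSubgroup M) (k : ℕ) : AddSubgroup M :=
  N ⊔ (nsmulAddMonoidHom (p ^ k) : M →+ M).range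

theorem mem_wgPow {M : Type*} [AddCommGroup M] (p : ℕ) (N : AddSubgroup M) (k : ℕ) (x : M) :
    x ∈ wgPow p N k ↔ ∃ y ∈ N, ∃ z, x = y + (p ^ k : ℕ) • z := by
  unfold wgPow
  rw [AddSubgroup.mem_sup]
  constructor
  · rintro ⟨y, hy, _, ⟨z, rfl⟩, rfl⟩
    exact ⟨y, hy, z, rfl⟩
  · rintro ⟨y, hy, z, rfl⟩
    exact ⟨y, hy, _, ⟨z, rfl⟩, rfl⟩

theorem wgPow_succ_le {M : Type*} [AddCommGroup M] (p : ℕ) (N : AddSubgroup M) (k : ℕ) :
    wgPow p N (k + 1) ≤ wgPow p N k := by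
  intro x hx
  obtain ⟨y, hy, z, rfl⟩ := (mem_wgPow p N (k + 1) x).1 hx
  exact (mem_wgPow p N k _).2 ⟨y, hy, p • z, by rw [pow_succ, mul_smul]⟩

theorem wgPow_anti {M : Type*} [AddCommGroup M] (p : ℕ) (N : AddSubgroup M) (k t : ℕ) :
    wgPow p N (k + t) ≤ wgPow p N k := by
  induction t with
  | zero => exact le_refl _
  | succ t ih => exact (wgPow_succ_le p N (k + t)).trans ih

theorem wgPow_ne_zero {M : Type*} [AddCommGroup M] (p : ℕ) (N : AddSubgroup M) {m : ℕ}
    (h0 : (wgPow p N m).index ≠ 0) {k : ℕ} (hk : k ≤ m) : (wgPow p N k).index ≠ 0 := by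
  intro h1
  obtain ⟨t, rfl⟩ := Nat.exists_eq_add_of_le hk
  have h2 := AddSubgroup.index_dvd_of_le (wgPow_anti p N k t)
  rw [h1] at h2
  exact h0 (Nat.eq_zero_of_zero_dvd h2)

/-- The index of `N + p ^ (k + 1) M` in `N + p ^ k M` is divisible by `p` if it is not `1`. -/
theorem wgPow_relIndex {M : Type*} [AddCommGroup M] (p : ℕ) (hp : p.Prime) (N : AddSubgroup M)
    (k : ℕ) (h0 : (wgPow p N (k + 1)).relIndex (wgPow p N k) ≠ 0)
    (h1 : ¬ wgPow p N k ≤ wgPow p N (k + 1)) :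
    p ≤ (wgPow p N (k + 1)).relIndex (wgPow p N k) := by
  let D := (wgPow p N (k + 1)).addSubgroupOf (wgPow p N k)
  have hD : D.index = (wgPow p N (k + 1)).relIndex (wgPow p N k) := rfl
  rw [← hD] at h0 ⊢
  have hfin : Finite (wgPow p N k ⧸ D) := (Nat.card_ne_zero.1 h0).2
  obtain ⟨x, hx, hx'⟩ := SetLike.not_le_iff_exists.1 h1
  let q : wgPow p N k ⧸ D := ((⟨x, hx⟩ : wgPow p N k) : wgPow p N k ⧸ D)
  have hq0 : q ≠ 0 := by
    intro h
    have h2 := (QuotientAddGroup.eq_zero_iff (⟨x, hx⟩ : wgPow p N k)).1 h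
    exact hx' h2
  have hpq : p • q = 0 := by
    have h2 : p • q = ((p • (⟨x, hx⟩ : wgPow p N k) : wgPow p N k) : wgPow p N k ⧸ D) := rfl
    rw [h2, QuotientAddGroup.eq_zero_iff]
    show ((p • (⟨x, hx⟩ : wgPow p N k) : wgPow p N k) : M) ∈ wgPow p N (k + 1)
    have h3 : ((p • (⟨x, hx⟩ : wgPow p N k) : wgPow p N k) : M) = p • x := rfl
    rw [h3]
    obtain ⟨y, hy, z, rfl⟩ := (mem_wgPow p N k x).1 hx
    refine (mem_wgPow p N (k + 1) _).2 ⟨p • y, N.nsmul_mem hy p, z, ?_⟩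
    rw [smul_add, ← mul_smul, pow_succ, mul_comm p]
  have : Fact p.Prime := ⟨hp⟩
  have h3 : addOrderOf q = p := addOrderOf_eq_prime hpq hq0
  have h4 : addOrderOf q ∣ Nat.card (wgPow p N k ⧸ D) := addOrderOf_dvd_natCard q
  rw [h3] at h4
  exact Nat.le_of_dvd (Nat.card_pos) h4

/-- If `N + p ^ m M` has less than `p ^ m` cosets, then the sequence of the groups `N + p ^ k M` is
stationary. -/
theorem wgPow_stationary {M : Type*} [AddCommGroup M] (p : ℕ) (hp : p.Prime) (N : AddSubgroup M)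
    (m : ℕ) (h0 : (wgPow p N m).index ≠ 0) (h1 : (wgPow p N m).index < p ^ m) :
    ∃ k, ∀ t, wgPow p N k ≤ wgPow p N (k + t) := by
  have h2 : ∃ k < m, wgPow p N k ≤ wgPow p N (k + 1) := by
    by_contra hcon
    push Not at hcon
    have h3 : ∀ k ≤ m, p ^ k ≤ (wgPow p N k).index := by
      intro k
      induction k with
      | zero =>
        intro _
        rw [pow_zero]
        have h5 := wgPow_ne_zero p N h0 (Nat.zero_le m)
        omega
      | succ k ih =>
        intro hk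
        have h4 := ih (by omega)
        have h5 := hcon k (by omega)
        have h6 := wgPow_succ_le p N k
        have h7 := AddSubgroup.relIndex_mul_index h6
        have h9 : (wgPow p N (k + 1)).relIndex (wgPow p N k) ≠ 0 := by
          intro h10
          rw [h10, zero_mul] at h7
          exact wgPow_ne_zero p N h0 hk h7.symm
        have h10 := wgPow_relIndex p hp N k h9 h5
        rw [← h7, pow_succ, mul_comm]
        exact Nat.mul_le_mul h10 h4
    exact absurd (h3 m le_rfl) (by omega)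
  obtain ⟨k, -, hk⟩ := h2
  refine ⟨k, fun t => ?_⟩
  induction t with
  | zero => exact le_refl _
  | succ t ih =>
    intro x hx
    obtain ⟨y, hy, z, rfl⟩ := (mem_wgPow p N (k + t) x).1 (ih hx)
    have h3 : (p ^ k : ℕ) • z ∈ wgPow p N (k + 1) :=
      hk ((mem_wgPow p N k _).2 ⟨0, zero_mem _, z, by rw [zero_add]⟩)
    obtain ⟨y', hy', z', h4⟩ := (mem_wgPow p N (k + 1) _).1 h3
    refine (mem_wgPow p N (k + (t + 1)) _).2 ⟨y + (p ^ t : ℕ) • y', add_mem hy
      (N.nsmul_mem hy' _), z', ?_⟩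
    rw [add_comm k t, pow_add, mul_smul, h4, smul_add, ← mul_smul, ← pow_add, add_assoc]
    congr 4
    omega

end group

section comp

variable {K : Type u} [Field K]

/-- Composition. -/
theorem wg_comp {L : IntermediateField K (AlgebraicClosure K)}
    {A B C : Over (Spec (.of K))} [GrpObj A] [IsAbVar A] [GrpObj B] [IsAbVar B] [GrpObj C]
    [IsAbVar C] {h : A ⟶ B} {f : B ⟶ C} (hf : IsMonHom f) {a c : ℕ} (h1 : CosetBound L h a)
    (h2 : CosetBound L f c) : CosetBound L (h ≫ f) (a * c) := by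
  classical
  obtain ⟨T1, hT1, g1, k1⟩ := h1
  obtain ⟨T2, hT2, g2, k2⟩ := h2
  refine ⟨(T2 ×ˢ T1).image fun p => p.1 + onPts f p.2, ?_, ?_, ?_⟩
  · refine Finset.card_image_le.trans ?_
    rw [Finset.card_product, mul_comm]
    exact Nat.mul_le_mul hT1 hT2
  · intro t ht s hs
    obtain ⟨⟨t2, t1⟩, hp, rfl⟩ := Finset.mem_image.1 ht
    obtain ⟨ht2, ht1⟩ := Finset.mem_product.1 hp
    simp only at ht1 ht2 ⊢
    rw [vc_act_add, vc_onPts_act, g2 t2 ht2 s hs, g1 t1 ht1 s hs]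
  · intro y hy
    obtain ⟨t2, ht2, y0, x, hy0, hx, rfl⟩ := k2 y hy
    obtain ⟨t1, ht1, x0, z, hx0, hz, rfl⟩ := k1 x hx
    refine ⟨t2 + onPts f t1, Finset.mem_image.2 ⟨(t2, t1), Finset.mem_product.2 ⟨ht2, ht1⟩, rfl⟩,
      y0 + onPts f x0, z, fun s => ?_, hz, ?_⟩
    · rw [vc_act_add, hy0, vc_onPts_act, hx0]
    · rw [vc_onPts_comp, vc_onPts_add, vc_onPts_add]
      abel

/-- The identity. -/
theorem wg_id (L : IntermediateField K (AlgebraicClosure K)) (A : Over (Spec (.of K))) [GrpObj A]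
    [IsAbVar A] : CosetBound L (𝟙 A) 1 := by
  refine ⟨{0}, by simp, fun t ht s _ => ?_, fun y hy => ⟨0, Finset.mem_singleton_self 0, 0, y,
    fun s => map_zero (galHom A s), hy, ?_⟩⟩
  · rw [Finset.mem_singleton.1 ht]
    exact map_zero (galHom A s)
  · rw [vc_onPts_id, zero_add, zero_add]

end comp

section rank

variable {K : Type u} [Field K] [NumberField K]

theorem wg_chain (p : ℕ) (hp : p.Prime) (L M : IntermediateField K (AlgebraicClosure K))
    [FiniteDimensional K L] [FiniteDimensional K M] [Normal K M] (hLM : L ⊓ M = ⊥)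
    (hpL : ¬ p ∣ Module.finrank K L) (hpM : ¬ p ∣ Module.finrank K M)
    (hμ : ∀ z : AlgebraicClosure K, z ^ p = 1 → z ∈ M)
    (A : Over (Spec (.of K))) [GrpObj A] [IsAbVar A]
    {B : Over (Spec (.of K))} [GrpObj B] [IsAbVar B] (h : A ⟶ B) (b : ℕ)
    (hc : ChainP p L M A B h b) : CosetBound L h (p ^ b) := by
  induction hc with
  | refl =>
    rw [pow_zero]
    exact wg_id L A
  | step h f b ρ T S R _ hf hρ ih =>
    rw [pow_add]
    exact wg_comp hf.hom ih (wg_step p hp L M hLM hpL hpM hμ T S R f hf _ hρ)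

/-- The bound for the rank; `A(K) + p^m A(L)` has at most `p ^ b` cosets in `A(L)`. -/
theorem wg_rank (p : ℕ) (hp : p.Prime) (L : IntermediateField K (AlgebraicClosure K))
    [FiniteDimensional K L]
    (A : Over (Spec (.of K))) [GrpObj A] [IsAbVar A] (hMW : Module.Finite ℤ (Pts A L))
    (m b : ℕ) (h : A ⟶ A) (hh : ∀ x, onPts h x = (p ^ m : ℕ) • x)
    (hb : CosetBound L h (p ^ b)) :
    rk A ⊥ ≤ rk A L ∧ m * (rk A L - rk A ⊥) ≤ b := by
  classical
  obtain ⟨T, hT, hT1, hT2⟩ := hb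
  set j := ptsa_j A (bot_le : ⊥ ≤ L) with hj
  let N : Submodule ℤ (Pts A L) := LinearMap.range j.toIntLinearMap
  have hinj : Function.Injective j.toIntLinearMap := sp_j_inj A _
  have h4 : Module.finrank ℤ (Pts A (⊥ : IntermediateField K (AlgebraicClosure K))) =
      Module.finrank ℤ N := (LinearEquiv.ofInjective j.toIntLinearMap hinj).finrank_eq
  have hc : ∀ t : T, ∃ t' : Pts A L, toBar A L t' = (t : Pts A (AlgebraicClosure K)) := by
    rintro ⟨t, ht⟩
    obtain ⟨t', ht'⟩ := sp_bar_of_fixed A L t (hT1 t ht)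
    exact ⟨t', ht'⟩
  choose τ hτ using hc
  have h5 := wg_group N p hp m b (Finset.univ.image τ) (by
      refine Finset.card_image_le.trans ?_
      rw [Finset.card_univ, Fintype.card_coe]
      exact hT) fun y => by
    obtain ⟨t, ht, y0, z, hy0, hz, he⟩ := hT2 (toBar A L y)
      (fun s hs' => sp_bar_fix A L s hs' y)
    obtain ⟨y1, rfl⟩ := sp_bar_of_fixed A ⊥ y0 (fun s _ => hy0 s)
    obtain ⟨z1, rfl⟩ := sp_bar_of_fixed A L z hz
    refine ⟨τ ⟨t, ht⟩, Finset.mem_image_of_mem _ (Finset.mem_univ _), j y1, ⟨y1, rfl⟩, z1, ?_⟩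
    apply sp_bar_inj A L
    rw [he, hh, map_add, map_add, hj, sp_bar_j, map_nsmul, hτ]
  unfold rk
  rw [h4]
  exact h5

/-- No new point, and equal ranks, if `A(L)` is the union of less than `p ^ m` cosets of
`A(K) + p ^ m A(L)`. The theorem of Mordell and Weil is not used. -/
theorem wg_lt (p : ℕ) (hp : p.Prime) (L : IntermediateField K (AlgebraicClosure K))
    [FiniteDimensional K L]
    (A : Over (Spec (.of K))) [GrpObj A] [IsAbVar A] (m b : ℕ) (hbm : b < m) (h : A ⟶ A)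
    (hh : ∀ x, onPts h x = (p ^ m : ℕ) • x) (hq : CosetBound L h (p ^ b)) :
    ¬ NewPoint A L ∧ Module.rank ℤ (Pts A L) =
      Module.rank ℤ (Pts A (⊥ : IntermediateField K (AlgebraicClosure K))) ∧
      rk A L = rk A ⊥ := by
  classical
  have hpf : Fact p.Prime := ⟨hp⟩
  set j := ptsa_j A (bot_le : ⊥ ≤ L) with hj
  obtain ⟨T, hT, hT1, hT2⟩ := hq
  have key : ∀ x : Pts A L, ∃ t ∈ T, ∃ y z,
      toBar A L x = t + toBar A L (j y + (p ^ m : ℕ) • z) := by
    intro x
    obtain ⟨t, ht, y0, z, hy0, hz, he⟩ := hT2 (toBar A L x) (fun s hs' => sp_bar_fix A L s hs' x)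
    obtain ⟨y1, rfl⟩ := sp_bar_of_fixed A ⊥ y0 (fun s _ => hy0 s)
    obtain ⟨z1, rfl⟩ := sp_bar_of_fixed A L z hz
    refine ⟨t, ht, y1, z1, ?_⟩
    rw [he, hh, map_add, hj, sp_bar_j, map_nsmul]
  choose τ hτ y z hyz using key
  have hinj := sp_bar_inj A L
  have h1 : ∀ x x', τ x = τ x' → x - x' ∈ wgPow p j.range m := by
    intro x x' hxx
    rw [mem_wgPow]
    refine ⟨j (y x - y x'), ⟨_, rfl⟩, z x - z x', ?_⟩
    apply hinj
    rw [map_sub, hyz x, hyz x', hxx, map_sub j, smul_sub]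
    rw [show j (y x) - j (y x') + ((p ^ m : ℕ) • z x - (p ^ m : ℕ) • z x') =
      (j (y x) + (p ^ m : ℕ) • z x) - (j (y x') + (p ^ m : ℕ) • z x') by abel, map_sub]
    abel
  let F : T → Pts A L ⧸ wgPow p j.range m := fun t =>
    if ht : ∃ x, τ x = t then QuotientAddGroup.mk ht.choose else 0
  have hF : Function.Surjective F := by
    intro q
    obtain ⟨x, rfl⟩ := QuotientAddGroup.mk_surjective q
    refine ⟨⟨τ x, hτ x⟩, ?_⟩
    have ht : ∃ x', τ x' = ((⟨τ x, hτ x⟩ : T) : Pts A (AlgebraicClosure K)) := ⟨x, rfl⟩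
    have e : F ⟨τ x, hτ x⟩ = QuotientAddGroup.mk ht.choose := dif_pos ht
    rw [e, QuotientAddGroup.eq]
    have h2 := h1 x ht.choose ht.choose_spec.symm
    rwa [sub_eq_neg_add] at h2
  have hfin : Finite (Pts A L ⧸ wgPow p j.range m) := Finite.of_surjective F hF
  have hcard : (wgPow p j.range m).index ≤ p ^ b := by
    have h2 := Nat.card_le_card_of_surjective F hF
    have h3 : Nat.card T = T.card := by rw [Nat.card_eq_fintype_card, Fintype.card_coe]
    exact (h2.trans_eq h3).trans hT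
  have h0 : (wgPow p j.range m).index ≠ 0 := by
    show Nat.card (Pts A L ⧸ wgPow p j.range m) ≠ 0
    exact Nat.card_pos.ne'
  obtain ⟨k, hk⟩ := wgPow_stationary p hp j.range m h0
    (hcard.trans_lt (Nat.pow_lt_pow_right hp.one_lt hbm))
  have h2 : ∀ x : Pts A L, ∃ N : ℕ, 0 < N ∧ N • x ∈ j.range := by
    intro x
    obtain ⟨N, hN, w, hw⟩ := vp_multiple p L A ((p ^ k : ℕ) • x) (by
      intro t
      have h3 : (p ^ k : ℕ) • x ∈ wgPow p j.range (k + t) :=
        hk t ((mem_wgPow p _ k _).2 ⟨0, zero_mem _, x, by rw [zero_add]⟩)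
      obtain ⟨_, ⟨a, rfl⟩, c, h4⟩ := (mem_wgPow p _ _ _).1 h3
      refine ⟨a, (p ^ k : ℕ) • c, ?_⟩
      rw [h4, ← mul_smul, ← pow_add, add_comm t k])
    refine ⟨N * Module.finrank K L * p ^ k, ?_, w, ?_⟩
    · have hN0 : N ≠ 0 := by
        rintro rfl
        rw [Nat.coprime_zero_left] at hN
        exact hp.one_lt.ne' hN
      have := Nat.pos_of_ne_zero hN0
      have := Module.finrank_pos (R := K) (M := L)
      have := hp.pos
      positivity
    · rw [mul_smul]
      exact hw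
  let R : Submodule ℤ (Pts A L) := LinearMap.range j.toIntLinearMap
  have hinj' : Function.Injective j.toIntLinearMap := sp_j_inj A _
  have h3 : Module.rank ℤ (Pts A L ⧸ R) = 0 := by
    rw [rank_eq_zero_iff]
    intro q
    obtain ⟨x, rfl⟩ := Submodule.Quotient.mk_surjective R q
    obtain ⟨N, hN, w, hw⟩ := h2 x
    refine ⟨N, by exact_mod_cast hN.ne', ?_⟩
    rw [← Submodule.Quotient.mk_smul, natCast_zsmul]
    exact (Submodule.Quotient.mk_eq_zero R).2 ⟨w, hw⟩
  have h4 : Module.rank ℤ (Pts A (⊥ : IntermediateField K (AlgebraicClosure K))) =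
      Module.rank ℤ (Pts A L) := by
    have h5 := rank_quotient_add_rank_of_isDomain R
    rw [h3, zero_add] at h5
    rw [← h5]
    exact (LinearEquiv.ofInjective j.toIntLinearMap hinj').rank_eq
  refine ⟨?_, h4.symm, ?_⟩
  · rintro ⟨x, hx, hx'⟩
    obtain ⟨y, rfl⟩ := sp_bar_of_fixed A L x hx
    obtain ⟨n, hn, z, hz⟩ := h2 y
    obtain ⟨s, hs⟩ := hx' n hn
    apply hs
    rw [← map_nsmul, ← hz]
    have h6 : toBar A L (ptsa_j A (bot_le : ⊥ ≤ L) z) = toBar A ⊥ z := sp_bar_j A _ z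
    rw [h6]
    exact sp_bar_fix A ⊥ s (by
      rw [IntermediateField.fixingSubgroup_bot]
      exact Subgroup.mem_top s) z
  · unfold rk Module.finrank
    rw [h4]

end rank

end Pool.Agent.H.MP_ac3185_nt
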