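import Pool.Agent.H.MP_ac3185_nt.V2.RootR

/-! The root number over an extension of even degree. -/

set_option autoImplicit false

open CategoryTheory AlgebraicGeometry NumberField IsDedekindDomain
open scoped MonObj Pointwise

namespace Pool.Agent.H.MP_ac3185_nt

universe u

variable {K : Type u} [Field K] [NumberField K]

/-- The product of the root numbers above a place `v`, if `[L : K]` is even, the root numbers at the
places of odd degree over `v` are the one at `v`, and those at the places of even degree are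
`(-1) ^ r`. -/
theorem wh_product (L : IntermediateField K (AlgebraicClosure K)) [FiniteDimensional K L]
    (heven : Even (Module.finrank K L)) (W : LocalSigns K)
    (hsign : ∀ w : HeightOneSpectrum (𝓞 (⊥ : IntermediateField K (AlgebraicClosure K))),
      W ⊥ w = 1 ∨ W ⊥ w = -1) (v : HeightOneSpectrum (𝓞 K)) (r : ℕ)
    (hv : ∀ (w : HeightOneSpectrum (𝓞 L)) (w₀ : HeightOneSpectrum (𝓞 (⊥ : IntermediateField K
      (AlgebraicClosure K)))) (𝔓 : Ideal (𝓞 (AlgebraicClosure K))), Above 𝔓 v →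
      PrimeOver L 𝔓 w → PrimeOver ⊥ 𝔓 w₀ →
      (Odd (L.fixingSubgroup.relIndex (decompGrp K 𝔓)) → W L w = W ⊥ w₀) ∧
        (Even (L.fixingSubgroup.relIndex (decompGrp K 𝔓)) → W L w = (-1) ^ r)) :
    ∏ᶠ w : {w : HeightOneSpectrum (𝓞 L) // Divides L w v}, W L w.1 =
      (-1) ^ (r * placeCount L v) := by
  classical
  obtain ⟨𝔓, h𝔓⟩ := exists_above v
  have h1' : OnePlace (⊥ : IntermediateField K (AlgebraicClosure K)) 𝔓 := by
    intro s
    refine ⟨1, (decompGrp K 𝔓).one_mem, ?_⟩
    rw [IntermediateField.fixingSubgroup_bot]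
    exact Subgroup.mem_top _
  obtain ⟨w₀, -, hw₀⟩ := exists_placeBelow ⊥ v 𝔓 h𝔓 1
  have hP : ∀ w : {w : HeightOneSpectrum (𝓞 L) // Divides L w v},
      ∃ 𝔔 : Ideal (𝓞 (AlgebraicClosure K)), Above 𝔔 v ∧ PrimeOver L 𝔔 w.1 := by
    intro w
    obtain ⟨σ, hσ⟩ := exists_translate L v 𝔓 h𝔓 w.1 w.2
    exact ⟨σ • 𝔓, above_smul v 𝔓 h𝔓 σ, hσ⟩
  choose P hP using hP
  have hloc : ∀ w : {w : HeightOneSpectrum (𝓞 L) // Divides L w v},
      W L w.1 = if Odd (L.fixingSubgroup.relIndex (decompGrp K (P w))) then W ⊥ w₀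
        else (-1) ^ r := by
    intro w
    have hw₀' : PrimeOver ⊥ (P w) w₀ := by
      obtain ⟨w', hw', hwv'⟩ := exists_placeBelow ⊥ v (P w) (hP w).1 1
      rw [one_smul] at hw'
      rwa [vr_one ⊥ v 𝔓 h𝔓 h1' w₀ w' hw₀ hwv']
    obtain ⟨k1, k2⟩ := hv w.1 w₀ (P w) (hP w).1 (hP w).2 hw₀'
    by_cases h : Odd (L.fixingSubgroup.relIndex (decompGrp K (P w)))
    · rw [if_pos h, k1 h]
    · rw [if_neg h, k2 (Nat.not_odd_iff_even.1 h)]
  have hf := (v2r_places L v).1
  have _ : Fintype {w : HeightOneSpectrum (𝓞 L) // Divides L w v} := Fintype.ofFinite _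
  have hsum := v2p_sum L v P hP
  rw [finsum_eq_sum_of_fintype] at hsum
  have hcard : (Finset.univ.filter fun w : {w : HeightOneSpectrum (𝓞 L) // Divides L w v} =>
      Odd (L.fixingSubgroup.relIndex (decompGrp K (P w)))).card +
      (Finset.univ.filter fun w : {w : HeightOneSpectrum (𝓞 L) // Divides L w v} =>
      ¬ Odd (L.fixingSubgroup.relIndex (decompGrp K (P w)))).card = placeCount L v := by
    rw [Finset.card_filter_add_card_filter_not]
    unfold placeCount
    rw [Nat.card_eq_fintype_card, Finset.card_univ]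
  have hevencard : Even (Finset.univ.filter fun w : {w : HeightOneSpectrum (𝓞 L) //
      Divides L w v} => Odd (L.fixingSubgroup.relIndex (decompGrp K (P w)))).card := by
    rw [← Nat.not_odd_iff_even, ← Finset.odd_sum_iff_odd_card_odd, hsum, Nat.not_odd_iff_even]
    exact heven
  rw [finprod_eq_prod_of_fintype, Finset.prod_congr rfl fun w _ => hloc w, Finset.prod_ite,
    Finset.prod_const, Finset.prod_const]
  have hs : W ⊥ w₀ ^ (Finset.univ.filter fun w : {w : HeightOneSpectrum (𝓞 L) //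
      Divides L w v} => Odd (L.fixingSubgroup.relIndex (decompGrp K (P w)))).card = 1 := by
    rcases hsign w₀ with h | h
    · rw [h, one_pow]
    · rw [h, hevencard.neg_one_pow]
  rw [hs, one_mul, ← pow_mul, ← hcard, mul_add, pow_add, (hevencard.mul_left r).neg_one_pow,
    one_mul]

/-- The local formula above a place of the set `T`. -/
theorem wh_place (L : IntermediateField K (AlgebraicClosure K)) [FiniteDimensional K L]
    (heven : Even (Module.finrank K L)) (A : Over (Spec (.of K))) [GrpObj A] [IsAbVar A]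
    (W : LocalSigns K) (hW : IsRootNumbers A W) (v : HeightOneSpectrum (𝓞 K)) (r : ℕ)
    (h : SplitTorus A v r ∨ (QuadTorus A v r ∧ OddRam L v) ∨ (EvenSign W v r ∧ UnrIn L v)) :
    ∏ᶠ w : {w : HeightOneSpectrum (𝓞 L) // Divides L w v}, W L w.1 =
      (-1) ^ (r * placeCount L v) := by
  rcases h with h | ⟨hQ, hE⟩ | ⟨hE, hL⟩
  · exact v2r_split L A W hW v r h
  · exact wh_product L heven W (hW.sign ⊥) v r fun w w₀ 𝔓 h𝔓 hw hw₀ =>
      v2t_local L A W hW v r hQ hE w w₀ 𝔓 h𝔓 hw hw₀
  · refine wh_product L heven W (hW.sign ⊥) v r fun w w₀ 𝔓 h𝔓 hw hw₀ =>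
      ⟨fun h => ?_, fun h => hE L w 𝔓 hw h𝔓 (hL 𝔓 h𝔓) h⟩
    obtain ⟨a, b, hab⟩ := hW.unramified v
    have hrel0 : (⊥ : IntermediateField K (AlgebraicClosure K)).fixingSubgroup.relIndex
        (decompGrp K 𝔓) = 1 := by
      rw [IntermediateField.fixingSubgroup_bot, Subgroup.relIndex_top_left]
    rw [(hab L w 𝔓 hw h𝔓 (hL 𝔓 h𝔓)).1 h, (hab ⊥ w₀ 𝔓 hw₀ h𝔓 (by
      rw [IntermediateField.fixingSubgroup_bot]
      exact fun g _ => Subgroup.mem_top g)).1 (by rw [hrel0]; exact odd_one)]

/-- The root number over an extension of even degree. -/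
theorem wh_sign (L : IntermediateField K (AlgebraicClosure K)) [FiniteDimensional K L]
    (heven : Even (Module.finrank K L)) (A : Over (Spec (.of K))) [GrpObj A] [IsAbVar A] (g : ℕ)
    (W : LocalSigns K) (hW : IsRootNumbers A W) (T : Finset (HeightOneSpectrum (𝓞 K)))
    (r : HeightOneSpectrum (𝓞 K) → ℕ)
    (hT : ∀ v ∈ T, SplitTorus A v (r v) ∨ (QuadTorus A v (r v) ∧ OddRam L v) ∨
      (EvenSign W v (r v) ∧ UnrIn L v))
    (hT' : ∀ v ∉ T, ∀ 𝔓, Above 𝔓 v → GoodAt A 𝔓) :
    signOver W g L = (-1) ^ (g * Nat.card (InfinitePlace L) + ∑ v ∈ T, r v * placeCount L v) := by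
  classical
  have key : ∀ v : HeightOneSpectrum (𝓞 K),
      ∏ᶠ w : {w : HeightOneSpectrum (𝓞 L) // Divides L w v}, W L w.1 =
        (if v ∈ T then (-1 : ℤ) ^ (r v * placeCount L v) else 1) := by
    intro v
    by_cases hv : v ∈ T
    · rw [if_pos hv]
      exact wh_place L heven A W hW v (r v) (hT v hv)
    · rw [if_neg hv]
      exact finprod_eq_one_of_forall_eq_one fun w => vr_good A W hW v (hT' v hv) L w.1 w.2
  have hsupp : (Function.mulSupport fun v : HeightOneSpectrum (𝓞 K) =>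
      if v ∈ T then (-1 : ℤ) ^ (r v * placeCount L v) else 1) ⊆ T := by
    intro v hv
    by_contra h
    exact hv (if_neg h)
  unfold signOver
  rw [(finprod_places L (W L) (hW.almost L)).2, finprod_congr key,
    finprod_eq_prod_of_mulSupport_subset _ hsupp, Finset.prod_ite_mem, Finset.inter_self,
    Finset.prod_pow_eq_pow_sum, pow_add]

end Pool.Agent.H.MP_ac3185_nt
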