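import Pool.Agent.H.MP_ac3185_nt.helper85.RankG
import Pool.Agent.H.MP_ac3185_nt.helper85.RootG

/-! Growth of ranks and root numbers in an extension of degree prime to `p`. -/

set_option autoImplicit false

open CategoryTheory AlgebraicGeometry NumberField IsDedekindDomain
open scoped MonObj

namespace Pool.Agent.H.MP_ac3185_nt

universe u

variable {K : Type u} [Field K] [NumberField K]

/-- The multiples prime to `p`, for `b = 0`. -/
theorem wg_zero (p : ℕ) (hp : p.Prime) (L : IntermediateField K (AlgebraicClosure K))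
    [FiniteDimensional K L] (hpL : ¬ p ∣ Module.finrank K L)
    (A : Over (Spec (.of K))) [GrpObj A] [IsAbVar A] (m : ℕ) (hm : 0 < m) (h : A ⟶ A)
    (hh : ∀ x, onPts h x = (p ^ m : ℕ) • x) (hq : CosetBound L h 1) :
    ∀ x : Pts A L, ∃ N : ℕ, N.Coprime p ∧ N • x ∈ (ptsa_j A (bot_le : ⊥ ≤ L)).range := by
  have hpf : Fact p.Prime := ⟨hp⟩
  obtain ⟨T, hT, hT1, hT2⟩ := hq
  have key : ∀ x : Pts A L, ∃ y z, x = ptsa_j A (bot_le : ⊥ ≤ L) y + (p ^ m : ℕ) • z := by
    intro x
    obtain ⟨t, ht, y0, z, hy0, hz, he⟩ := hT2 (toBar A L x) (fun s hs' => sp_bar_fix A L s hs' x)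
    obtain ⟨t', ht', y0', z', hy0', hz', he'⟩ := hT2 0 (fun s _ => map_zero (galHom A s))
    have htt : t = t' := Finset.card_le_one.1 hT t ht t' ht'
    obtain ⟨y1, hy1⟩ := sp_bar_of_fixed A ⊥ (y0 - y0') (fun s _ =>
      (va_sub s y0 y0').trans (by rw [hy0, hy0']))
    obtain ⟨z1, hz1⟩ := sp_bar_of_fixed A L (z - z') (fun s hs =>
      (va_sub s z z').trans (by rw [hz s hs, hz' s hs]))
    refine ⟨y1, z1, ?_⟩
    apply sp_bar_inj A L
    rw [map_add, sp_bar_j, map_nsmul, hy1, hz1, he, hh, smul_sub]
    rw [hh] at he'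
    have h1 : t' = -(y0' + (p ^ m : ℕ) • z') := by
      rw [eq_neg_iff_add_eq_zero]
      exact he'.symm
    rw [htt, h1]
    abel
  intro x
  obtain ⟨h1, -, -⟩ := vp_rank p L A m hm key
  obtain ⟨N, hN, h2⟩ := h1 x
  refine ⟨N * Module.finrank K L, Nat.Coprime.mul_left hN ?_, h2⟩
  exact Nat.Coprime.symm ((Nat.Prime.coprime_iff_not_dvd hp).2 hpL)

/-- The sign rule in even degree. -/
theorem wg_signs (a e : ℕ) : ((-1 : ℤ) ^ a = (-1) ^ e) ↔ Even (a + e) := by
  rcases Nat.even_or_odd a with ha | ha <;> rcases Nat.even_or_odd e with he | he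
  · simp [ha.neg_one_pow, he.neg_one_pow, ha.add he]
  · have h := ha.add_odd he
    simp only [ha.neg_one_pow, he.neg_one_pow]
    exact iff_of_false (by norm_num) (Nat.not_even_iff_odd.2 h)
  · have h := ha.add_even he
    simp only [ha.neg_one_pow, he.neg_one_pow]
    exact iff_of_false (by norm_num) (Nat.not_even_iff_odd.2 h)
  · simp [ha.neg_one_pow, he.neg_one_pow, ha.add_odd he]

/-- Let `p` be a prime number, `L / K` an extension of number fields of degree prime to `p`, `M / K` a
finite normal extension of degree prime to `p` with `L ∩ M = K` which contains the `p`-th roots of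
unity, and `A / K` an abelian variety, such that the multiplication by `p ^ m` on `A` is a composition
`h` of isogenies of degree `p` over `K` as in `ChainP`, with bound `b`; all their kernels consist of
`M`-rational points.

(1) `A(L)` is the union of at most `p ^ b` cosets of `A(K) + p ^ m A(L)`. If `b = 0 < m` then every
point of `A(L)` has a multiple prime to `p` in `A(K)`. If `b < m` then every point of `A(L)` has a
multiple in `A(K)` and the ranks are equal. If `A(L)` is finitely generated then
`m (rk A(L) - rk A(K)) ≤ b`.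

(2) Suppose that for every finite place `v` of `K` in the finite set `T` one of the following holds:
`A` is semistable at `v` with a split torus of rank `r v` over `K_v`, or over the unramified quadratic
extension of `K_v`, where in the second case the ramification indices of the places of `L` above `v`
are odd, or `v` is unramified in `L` and the root numbers of `A` over the unramified extensions of `K_v`
of even degree are `(-1) ^ r v` (this is true for the exponent `r v` of the conductor of `A` at `v`).

(a) Let `[L : K]` be odd, and suppose that `MildAt` holds for the finite places outside `T`. Then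
`w(A/L) = (-1) ^ e w(A/K)`, where `e = signChange L g T r`. If `b < m` then the parity conjectures for
`A` over `L` and over `K` are equivalent if and only if `e` is even. If `b < 2 m` and `A(L)` is finitely
generated, they are equivalent if and only if: `e` is odd if and only if some point of `A(L)` has no
multiple in `A(K)`.

(b) Let `[L : K]` be even, and suppose that `A` has good reduction outside `T`. Then
`w(A/L) = (-1) ^ e`, where `e = g #∞_L + ∑ r_v g_v`, the sum over the places `v` in `T`, and `g_v` is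
the number of places of `L` above `v`. If `b < m` then the parity conjecture holds for `A` over `L` if
and only if `rk A(K) + e` is even. If `b < 2 m` and `A(L)` is finitely generated, it holds if and only
if: `rk A(K) + e` is odd if and only if some point of `A(L)` has no multiple in `A(K)`. -/
theorem wg_main (p : ℕ) (hp : p.Prime) (L M : IntermediateField K (AlgebraicClosure K))
    [FiniteDimensional K L] [FiniteDimensional K M] [Normal K M] (hLM : L ⊓ M = ⊥)
    (hpL : ¬ p ∣ Module.finrank K L) (hpM : ¬ p ∣ Module.finrank K M)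
    (hμ : ∀ z : AlgebraicClosure K, z ^ p = 1 → z ∈ M)
    (A : Over (Spec (.of K))) [GrpObj A] [IsAbVar A]
    (m b : ℕ) (h : A ⟶ A) (hh : ChainP p L M A A h b)
    (hmul : ∀ x, onPts h x = (p ^ m : ℕ) • x) :
    CosetBound L h (p ^ b) ∧
    (b = 0 → 0 < m → ∀ x : Pts A L, ∃ N : ℕ, N.Coprime p ∧
      N • x ∈ (ptsa_j A (bot_le : ⊥ ≤ L)).range) ∧
    (b < m → ¬ NewPoint A L ∧ rk A L = rk A ⊥) ∧
    (Module.Finite ℤ (Pts A L) → rk A ⊥ ≤ rk A L ∧ m * (rk A L - rk A ⊥) ≤ b) ∧
    ∀ g : ℕ, topologicalKrullDim A.left = g → ∀ W : LocalSigns K, IsRootNumbers A W →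
      ∀ (T : Finset (HeightOneSpectrum (𝓞 K))) (r : HeightOneSpectrum (𝓞 K) → ℕ),
      (∀ v ∈ T, SplitTorus A v (r v) ∨ (QuadTorus A v (r v) ∧ OddRam L v) ∨
        (EvenSign W v (r v) ∧ UnrIn L v)) →
      (Odd (Module.finrank K L) → (∀ v ∉ T, ∀ 𝔓, Above 𝔓 v → MildAt A L 𝔓) →
        signOver W g L = (-1) ^ signChange L g T r * signOver W g ⊥ ∧
        (b < m → ((ParityFor A g W L ↔ ParityFor A g W ⊥) ↔ Even (signChange L g T r))) ∧
        (b < 2 * m → Module.Finite ℤ (Pts A L) →
          ((ParityFor A g W L ↔ ParityFor A g W ⊥) ↔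
            (Odd (signChange L g T r) ↔ NewPoint A L)))) ∧
      (Even (Module.finrank K L) → (∀ v ∉ T, ∀ 𝔓, Above 𝔓 v → GoodAt A 𝔓) →
        signOver W g L =
          (-1) ^ (g * Nat.card (InfinitePlace L) + ∑ v ∈ T, r v * placeCount L v) ∧
        (b < m → (ParityFor A g W L ↔
          Even (rk A ⊥ + (g * Nat.card (InfinitePlace L) + ∑ v ∈ T, r v * placeCount L v)))) ∧
        (b < 2 * m → Module.Finite ℤ (Pts A L) → (ParityFor A g W L ↔
          (Odd (rk A ⊥ + (g * Nat.card (InfinitePlace L) + ∑ v ∈ T, r v * placeCount L v)) ↔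
            NewPoint A L)))) := by
  have hq := wg_chain p hp L M hLM hpL hpM hμ A h b hh
  have hlt : b < m → ¬ NewPoint A L ∧ rk A L = rk A ⊥ := fun hb =>
    ⟨(wg_lt p hp L A m b hb h hmul hq).1, (wg_lt p hp L A m b hb h hmul hq).2.2⟩
  have hnew : b < 2 * m → Module.Finite ℤ (Pts A L) →
      ∃ δ, rk A L = rk A ⊥ + δ ∧ δ < 2 ∧ (Odd δ ↔ NewPoint A L) := by
    intro hb hMW
    obtain ⟨hle, hb2⟩ := wg_rank p hp L A hMW m b h hmul hq
    have h0 : rk A L - rk A ⊥ < 2 := by
      by_contra hne
      have h3 : m * 2 ≤ m * (rk A L - rk A ⊥) := Nat.mul_le_mul_left m (not_lt.1 hne)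
      omega
    obtain ⟨δ, hδ⟩ : ∃ δ, rk A L = rk A ⊥ + δ := ⟨rk A L - rk A ⊥, by omega⟩
    refine ⟨δ, hδ, by omega, ?_⟩
    constructor
    · intro ho
      by_contra hn
      have h5 := v2_not_new L A hMW hn
      have h6 : δ = 0 := by omega
      rw [h6] at ho
      exact absurd ho (by decide)
    · rintro ⟨x, hx, hx'⟩
      have h5 : rk A L ≠ rk A ⊥ := v2k_new L A hMW x hx hx'
      have h6 : δ = 1 := by omega
      rw [h6]
      exact odd_one
  refine ⟨hq, fun hb hm => ?_, hlt, fun hMW => wg_rank p hp L A hMW m b h hmul hq, ?_⟩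
  · subst hb
    rw [pow_zero] at hq
    exact wg_zero p hp L hpL A m hm h hmul hq
  intro g _ W hW T r hT
  refine ⟨fun hodd hT' => ?_, fun heven hT' => ?_⟩
  · have hs := v2t_sign L hodd A g W hW T r hT hT'
    have hs1 := signOver_sign A W hW g ⊥
    refine ⟨hs, fun hb => ?_, fun hb hMW => ?_⟩
    · have h2 := (hlt hb).2
      have h3 := v2_signs (rk A ⊥) 0 (signChange L g T r) _ _ hs1 hs
      rw [add_zero, ← h2] at h3
      unfold ParityFor
      rw [← h2]
      refine h3.trans ?_
      rw [← Nat.not_even_iff_odd]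
      simp
    · obtain ⟨δ, hδ, -, h4⟩ := hnew hb hMW
      have h3 := v2_signs (rk A ⊥) δ (signChange L g T r) _ _ hs1 hs
      unfold ParityFor
      rw [hδ]
      refine h3.trans ?_
      rw [h4]
  · have hs := wh_sign L heven A g W hW T r hT hT'
    refine ⟨hs, fun hb => ?_, fun hb hMW => ?_⟩
    · unfold ParityFor
      rw [hs, (hlt hb).2]
      exact wg_signs _ _
    · obtain ⟨δ, hδ, hδ2, h4⟩ := hnew hb hMW
      unfold ParityFor
      rw [hs, hδ, ← h4]
      refine (wg_signs _ _).trans ?_
      rw [add_right_comm, Nat.even_add, ← Nat.not_odd_iff_even, ← Nat.not_odd_iff_even,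
        not_iff_not]

end Pool.Agent.H.MP_ac3185_nt
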