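import Pool.Agent.H.MP_ac3185_nt.S.RkAct

/-! The field `K(A[p], μ_p)`. -/

set_option autoImplicit false

open CategoryTheory AlgebraicGeometry
open scoped MonObj

namespace Pool.Agent.H.MP_ac3185_nt

universe u

variable {K : Type u} [Field K]

/-- `s` acts trivially on `A[p]` and on the `p`-th roots of unity, i.e. it fixes the field
`K(A[p], μ_p)`. -/
def FixTor (p : ℕ) (A : Over (Spec (.of K))) [GrpObj A] [IsAbVar A]
    (s : AlgebraicClosure K ≃ₐ[K] AlgebraicClosure K) : Prop :=
  (∀ x : Pts A (AlgebraicClosure K), p • x = 0 → act A s x = x) ∧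
    ∀ z : AlgebraicClosure K, z ^ p = 1 → s z = z

/-- `L` is linearly disjoint from the field `K(A[p], μ_p)`: every automorphism is the product of an
automorphism over `L` and one which acts trivially on `A[p]` and on the `p`-th roots of unity. -/
def DisjTor (p : ℕ) (A : Over (Spec (.of K))) [GrpObj A] [IsAbVar A]
    (L : IntermediateField K (AlgebraicClosure K)) : Prop :=
  ∀ s, ∃ t ∈ L.fixingSubgroup, FixTor p A (t⁻¹ * s)

end Pool.Agent.H.MP_ac3185_nt
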