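import Pool.Agent.H.MP_ac3185_nt.V9.FinalP
import Pool.Agent.H.MP_ac3185_nt.V9.Main
import Pool.Agent.H.MP_ac3185_nt.V9.SignN
import Pool.Agent.H.MP_ac3185_nt.helper85.MainG
import Pool.Agent.H.MP_ac3185_nt.helper85.TorDefs

/-! The growth of the rank and the root number in extensions of degree prime to `p`: the complete
theorem. -/

set_option autoImplicit false

open CategoryTheory AlgebraicGeometry NumberField IsDedekindDomain
open scoped MonObj

namespace Pool.Agent.H.MP_ac3185_nt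

universe u

variable {K : Type u} [Field K] [NumberField K]

/-- The root number and the parity conjecture, from the bounds for the rank. -/
theorem wj_q1 (L : IntermediateField K (AlgebraicClosure K)) [FiniteDimensional K L]
    (A : Over (Spec (.of K))) [GrpObj A] [IsAbVar A] (m b : ℕ)
    (hlt : b < m → ¬ NewPoint A L ∧ rk A L = rk A ⊥)
    (hrk : Module.Finite ℤ (Pts A L) → rk A ⊥ ≤ rk A L ∧ m * (rk A L - rk A ⊥) ≤ b)
    (g : ℕ) (W : LocalSigns K) (hW : IsRootNumbers A W)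
    (T : Finset (HeightOneSpectrum (𝓞 K))) (r : HeightOneSpectrum (𝓞 K) → ℕ)
    (hT : ∀ v ∈ T, SplitTorus A v (r v) ∨ (QuadTorus A v (r v) ∧ OddRam L v) ∨
      (EvenSign W v (r v) ∧ UnrIn L v))
    (hT' : ∀ v ∉ T, ∀ 𝔓, Above 𝔓 v → GoodAt A 𝔓) :
    signOver W g L = (-1) ^ signExp L g T r * signOver W g ⊥ ^ Module.finrank K L ∧
      (Even (Module.finrank K L) →
        (b < m → (ParityFor A g W L ↔ Even (rk A ⊥ + signExp L g T r))) ∧
        (b < 2 * m → Module.Finite ℤ (Pts A L) →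
          (ParityFor A g W L ↔ (Odd (rk A ⊥ + signExp L g T r) ↔ NewPoint A L)))) ∧
      (Odd (Module.finrank K L) →
        (b < m → ((ParityFor A g W L ↔ ParityFor A g W ⊥) ↔ Even (signExp L g T r))) ∧
        (b < 2 * m → Module.Finite ℤ (Pts A L) →
          ((ParityFor A g W L ↔ ParityFor A g W ⊥) ↔
            (Odd (signExp L g T r) ↔ NewPoint A L)))) := by
  have hs := v9_sign L A g W hW T r hT hT'
  have hs1 := signOver_sign A W hW g ⊥
  have hsq : signOver W g ⊥ * signOver W g ⊥ = 1 := by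
    rcases hs1 with h | h <;> rw [h] <;> norm_num
  have hnew : b < 2 * m → Module.Finite ℤ (Pts A L) →
      ∃ δ, rk A L = rk A ⊥ + δ ∧ (Odd δ ↔ NewPoint A L) := by
    intro hb hMW
    obtain ⟨hle, hb2⟩ := hrk hMW
    have h0 : rk A L - rk A ⊥ < 2 := by
      by_contra hne
      have h3 : m * 2 ≤ m * (rk A L - rk A ⊥) := Nat.mul_le_mul_left m (not_lt.1 hne)
      omega
    obtain ⟨δ, hδ⟩ : ∃ δ, rk A L = rk A ⊥ + δ := ⟨rk A L - rk A ⊥, by omega⟩
    refine ⟨δ, hδ, ?_⟩
    constructor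
    · intro ho
      by_contra hn
      have h5 := v2_not_new L A hMW hn
      have h6 : δ = 0 := by omega
      rw [h6] at ho
      exact absurd ho (by decide)
    · rintro ⟨x, hx, hx'⟩
      have h5 : rk A L ≠ rk A ⊥ := v2k_new L A hMW x hx hx'
      have h6 : δ = 1 := by omega
      rw [h6]
      exact odd_one
  refine ⟨hs, fun he => ?_, fun ho => ?_⟩
  · obtain ⟨k, hk⟩ := he
    have h1 : signOver W g ⊥ ^ Module.finrank K L = 1 := by
      rw [hk, pow_add, ← mul_pow, hsq, one_pow]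
    rw [h1, mul_one] at hs
    refine ⟨fun hb => ?_, fun hb hMW => ?_⟩
    · unfold ParityFor
      rw [hs, (hlt hb).2]
      exact wg_signs _ _
    · obtain ⟨δ, hδ, h4⟩ := hnew hb hMW
      unfold ParityFor
      rw [hs, hδ, ← h4]
      refine (wg_signs _ _).trans ?_
      rw [add_right_comm, Nat.even_add, ← Nat.not_odd_iff_even, ← Nat.not_odd_iff_even,
        not_iff_not]
  · obtain ⟨k, hk⟩ := ho
    have h1 : signOver W g ⊥ ^ Module.finrank K L = signOver W g ⊥ := by
      rw [hk, pow_succ, pow_mul, sq, hsq, one_pow, one_mul]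
    rw [h1] at hs
    refine ⟨fun hb => ?_, fun hb hMW => ?_⟩
    · have h2 := (hlt hb).2
      have h3 := v2_signs (rk A ⊥) 0 (signExp L g T r) _ _ hs1 hs
      rw [add_zero, ← h2] at h3
      unfold ParityFor
      rw [← h2]
      refine h3.trans ?_
      rw [← Nat.not_even_iff_odd]
      simp
    · obtain ⟨δ, hδ, h4⟩ := hnew hb hMW
      have h3 := v2_signs (rk A ⊥) δ (signExp L g T r) _ _ hs1 hs
      unfold ParityFor
      rw [hδ]
      refine h3.trans ?_
      rw [h4]

/-- The complete theorem. -/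
theorem wj_all (p : ℕ) (hp : p.Prime) (A : Over (Spec (.of K))) [GrpObj A] [IsAbVar A] :
    (∀ (L : IntermediateField K (AlgebraicClosure K)) [FiniteDimensional K L],
      (Module.finrank K L).Coprime p →
      ∀ (m b : ℕ) (N : AddSubgroup (Pts A (AlgebraicClosure K))),
      (∀ x, InSub N x ↔ (p ^ m : ℕ) • x = 0) → CharChain p L A N b →
      (∀ g : ℕ, topologicalKrullDim A.left = g → ∀ W : LocalSigns K, IsRootNumbers A W →
        ∀ (T : Finset (HeightOneSpectrum (𝓞 K))) (r : HeightOneSpectrum (𝓞 K) → ℕ),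
        (∀ v ∈ T, SplitTorus A v (r v) ∨ (QuadTorus A v (r v) ∧ OddRam L v) ∨
          (EvenSign W v (r v) ∧ UnrIn L v)) →
        (∀ v ∉ T, ∀ 𝔓, Above 𝔓 v → GoodAt A 𝔓) →
          signOver W g L = (-1) ^ signExp L g T r * signOver W g ⊥ ^ Module.finrank K L ∧
          (Even (Module.finrank K L) →
            (b < m → (ParityFor A g W L ↔ Even (rk A ⊥ + signExp L g T r))) ∧
            (b < 2 * m → Module.Finite ℤ (Pts A L) →
              (ParityFor A g W L ↔ (Odd (rk A ⊥ + signExp L g T r) ↔ NewPoint A L)))) ∧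
          (Odd (Module.finrank K L) →
            (b < m → ((ParityFor A g W L ↔ ParityFor A g W ⊥) ↔ Even (signExp L g T r))) ∧
            (b < 2 * m → Module.Finite ℤ (Pts A L) →
              ((ParityFor A g W L ↔ ParityFor A g W ⊥) ↔
                (Odd (signExp L g T r) ↔ NewPoint A L))))) ∧
      MulCover A L (p ^ m) (p ^ b) ∧
      (b = 0 → 0 < m → ∀ x, (∀ s ∈ L.fixingSubgroup, act A s x = x) →
        ∃ k : ℕ, k.Coprime p ∧ ∀ s, act A s (k • x) = k • x) ∧
      (b < m → ¬ NewPoint A L ∧ rk A L = rk A ⊥) ∧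
      (Module.Finite ℤ (Pts A L) → rk A ⊥ ≤ rk A L ∧ m * (rk A L - rk A ⊥) ≤ b)) ∧
    ∃ (S₀ : Finset (HeightOneSpectrum (𝓞 K))) (r : ℕ)
      (F : ℕ → IntermediateField K (AlgebraicClosure K))
      (S : ∀ i, Finset (HeightOneSpectrum (𝓞 (F i)))),
      (∀ v ∉ S₀, ∀ 𝔓, Above 𝔓 v → GoodAt A 𝔓) ∧
      (∀ W : LocalSigns K, IsRootNumbers A W → ∀ v, ∃ a, EvenSign W v a) ∧
      (∀ i v, v ∈ S i ↔ ∃ v₀ ∈ S₀, Divides (F i) v v₀) ∧
      (∀ i < r, FiniteDimensional K (F i) ∧ (Module.finrank K (F i)).Coprime p ∧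
        ∀ s, FixTor p A s → s ∈ (F i).fixingSubgroup) ∧
      ∀ (L : IntermediateField K (AlgebraicClosure K)) [FiniteDimensional K L],
        (Module.finrank K L).Coprime p → DisjTor p A L →
        ∀ N : AddSubgroup (Pts A (AlgebraicClosure K)), (∀ x, InSub N x ↔ p • x = 0) →
          CharChain p L A N
            (∑ i ∈ Finset.range r, (rhoBoundP p L (F i) + excessOver L (F i) (S i))) := by
  refine ⟨fun L _ hn m b N hN hc => ?_, ?_⟩
  · obtain ⟨h1, h2, h3, h4, -⟩ := v9_main p hp L hn A m b N hN hc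
    exact ⟨fun g _ W hW T r hT hT' => wj_q1 L A m b h3 h4 g W hW T r hT hT', h1, h2, h3, h4⟩
  · obtain ⟨S₀, r, F, S, h1, h2, h3, h4⟩ := v9_final hp A
    exact ⟨S₀, r, F, S, h1, v8_evenSign A, h2, fun i hi => ⟨(h3 i hi).1, (h3 i hi).2.1,
      fun s hs => (h3 i hi).2.2 s hs.1 hs.2⟩, fun L _ hn hd N hN => h4 L hn hd N hN⟩

end Pool.Agent.H.MP_ac3185_nt
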