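import Pool.Agent.H.MP_ac3185_nt.V10.Final
import Pool.Agent.H.MP_ac3185_nt.V10.MainOdd
import Pool.Agent.H.MP_ac3185_nt.helper85.AllP

/-! The growth of the rank and the root number over the fields `LM`: the complete theorem. -/

set_option autoImplicit false

open CategoryTheory AlgebraicGeometry NumberField IsDedekindDomain
open scoped MonObj

namespace Pool.Agent.H.MP_ac3185_nt

universe u

variable {K : Type u} [Field K] [NumberField K]

/-- The complete theorem. -/
theorem wk_all (p : ℕ) (hp : p.Prime) (A : Over (Spec (.of K))) [GrpObj A] [IsAbVar A] :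
    (∀ (L M E : IntermediateField K (AlgebraicClosure K)) [FiniteDimensional K L]
      [FiniteDimensional K M] [FiniteDimensional K E] [IsGalois K E],
      (Module.finrank K L).Coprime p → M ≤ E → IsPGroup p (E ≃ₐ[K] E) →
      ∀ (m b : ℕ) (N : AddSubgroup (Pts A (AlgebraicClosure K))),
      (∀ x, InSub N x ↔ (p ^ m : ℕ) • x = 0) → TowerChain p L M A N b →
      MulCoverOver A L M (p ^ m) (p ^ (b * Module.finrank K M)) ∧
      (b = 0 → 0 < m → ∀ x, FixPt A (L ⊔ M).fixingSubgroup x →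
        ∃ k : ℕ, k.Coprime p ∧ FixPt A M.fixingSubgroup (k • x)) ∧
      (b * Module.finrank K M < m → rk A (L ⊔ M) = rk A M) ∧
      (Module.Finite ℤ (Pts A (L ⊔ M : IntermediateField K (AlgebraicClosure K))) →
        rk A M ≤ rk A (L ⊔ M) ∧
          m * (rk A (L ⊔ M) - rk A M) ≤ b * Module.finrank K M)) ∧
    (Odd p → ∀ (L M E : IntermediateField K (AlgebraicClosure K)) [FiniteDimensional K L]
      [FiniteDimensional K M] [FiniteDimensional K E] [IsGalois K E],
      (Module.finrank K L).Coprime p → M ≤ E → Odd (Module.finrank K E) →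
      Module.Finite ℤ (Pts A (L ⊔ E : IntermediateField K (AlgebraicClosure K))) →
      ∀ (m b : ℕ) (N : AddSubgroup (Pts A (AlgebraicClosure K))),
      (∀ x, InSub N x ↔ (p ^ m : ℕ) • x = 0) → TowerChain p L ⊥ A N b →
      ∀ g : ℕ, topologicalKrullDim A.left = g → ∀ W : LocalSigns K, IsRootNumbers A W →
        ∀ (T : Finset (HeightOneSpectrum (𝓞 K))) (r : HeightOneSpectrum (𝓞 K) → ℕ),
        (∀ v ∈ T, SplitTorus A v (r v) ∨ (QuadTorus A v (r v) ∧ OddRam (L ⊔ M) v) ∨
          (EvenSign W v (r v) ∧ UnrIn (L ⊔ M) v)) →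
        (∀ v ∉ T, ∀ 𝔓, Above 𝔓 v → GoodAt A 𝔓) →
          signOver W g (L ⊔ M) = signOver W g L ∧
          (ParityFor A g W (L ⊔ M) ↔ ParityFor A g W L) ∧
          signOver W g L = (-1) ^ signExp L g T r * signOver W g ⊥ ^ Module.finrank K L ∧
          (Even (Module.finrank K L) →
            (b < m → (ParityFor A g W L ↔ Even (rk A ⊥ + signExp L g T r))) ∧
            (b < 2 * m →
              (ParityFor A g W L ↔ (Odd (rk A ⊥ + signExp L g T r) ↔ NewPoint A L)))) ∧
          (Odd (Module.finrank K L) →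
            (b < m → ((ParityFor A g W L ↔ ParityFor A g W ⊥) ↔ Even (signExp L g T r))) ∧
            (b < 2 * m → ((ParityFor A g W L ↔ ParityFor A g W ⊥) ↔
              (Odd (signExp L g T r) ↔ NewPoint A L))))) ∧
    ∃ (S₀ : Finset (HeightOneSpectrum (𝓞 K))) (r : ℕ)
      (F : ℕ → IntermediateField K (AlgebraicClosure K))
      (S' : Finset (HeightOneSpectrum (𝓞 K)) → ∀ i, Finset (HeightOneSpectrum (𝓞 (F i)))),
      (∀ v ∉ S₀, ∀ 𝔓, Above 𝔓 v → GoodAt A 𝔓) ∧
      (∀ W : LocalSigns K, IsRootNumbers A W → ∀ v, ∃ a, EvenSign W v a) ∧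
      (∀ S i v, v ∈ S' S i ↔ ∃ v₀ ∈ S, Divides (F i) v v₀) ∧
      (∀ i < r, FiniteDimensional K (F i) ∧ (Module.finrank K (F i)).Coprime p ∧
        ∀ s, FixTor p A s → s ∈ (F i).fixingSubgroup) ∧
      ∀ (L M E : IntermediateField K (AlgebraicClosure K)) [FiniteDimensional K L]
        [FiniteDimensional K M] [FiniteDimensional K E] [IsGalois K E],
        (Module.finrank K L).Coprime p → DisjTor p A L → M ≤ E → IsPGroup p (E ≃ₐ[K] E) →
        ∀ S : Finset (HeightOneSpectrum (𝓞 K)), S₀ ⊆ S → (∀ v ∉ S, UnrIn M v) →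
        ∀ N : AddSubgroup (Pts A (AlgebraicClosure K)), (∀ x, InSub N x ↔ p • x = 0) →
          TowerChain p L M A N
            (∑ i ∈ Finset.range r, (rhoBoundP p L (F i) + excessOver L (F i) (S' S i))) := by
  refine ⟨fun L M E _ _ _ _ hn hME hE m b N hN hc => v10_rk hp L hn M E hME hE A m b N hN hc,
    fun _ L M E _ _ _ _ hn hME hE hfin m b N hN hc g _ W hW T r hT hT' =>
      v10_q1 hp L hn A m b N hN hc M E hME hE hfin g W hW T r hT hT', ?_⟩
  obtain ⟨S₀, r, F, S', h1, h2, h3, h4⟩ := v10_final hp A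
  exact ⟨S₀, r, F, S', h1, v8_evenSign A, h2, fun i hi => ⟨(h3 i hi).1, (h3 i hi).2.1,
    fun s hs => (h3 i hi).2.2 s hs.1 hs.2⟩, fun L M E _ _ _ _ hn hd hME hE S hS hM N hN =>
      h4 L hn hd S hS M E hME hE (fun v hv => hM v hv) N hN⟩

end Pool.Agent.H.MP_ac3185_nt
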