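import Pool.Agent.H.MP_ac3185_nt.V.Defs

/-! Definitions for the theorem on rank stability in extensions of degree prime to `p`. -/

set_option autoImplicit false

open CategoryTheory AlgebraicGeometry NumberField IsDedekindDomain
open scoped MonObj

namespace Pool.Agent.H.MP_ac3185_nt

universe u

section field

variable {K : Type u} [Field K]

/-- `s` acts on the `p`-th roots of unity as `z ↦ z ^ i` and on the kernel of `f` as `x ↦ j x`. If
the kernel is cyclic of order `p` and `ω`, `χ` are the characters of `Gal(Kbar/K)` given by the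
`p`-th roots of unity and by the kernel, this says `ω(s) = i`, `χ(s) = j`. Let `θ = ω / χ`, so that
`θ(s) = i / j`. -/
def ActsBy (p : ℕ) {B C : Over (Spec (.of K))} [GrpObj B] [IsAbVar B] [GrpObj C] [IsAbVar C]
    (f : B ⟶ C) (s : AlgebraicClosure K ≃ₐ[K] AlgebraicClosure K) (i j : ℕ) : Prop :=
  (∀ z : AlgebraicClosure K, z ^ p = 1 → s z = z ^ i) ∧ ∀ x, onPts f x = 0 → act B s x = j • x

/-- Over `M` the kernel of `f : B → C` is etale at the place below `𝔓`: there is a homomorphism on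
`B(Kbar)` which is constant on the orbits of the inertia group of `𝔓` in `Gal(Kbar/M)` and injective
on the kernel of `f`. Examples: the reduction map, if `B` has good reduction over `M` and the kernel
of `f` meets the kernel of reduction trivially; the valuation on a Tate curve. -/
def EtaleOver (M : IntermediateField K (AlgebraicClosure K)) {B C : Over (Spec (.of K))}
    [GrpObj B] [IsAbVar B] [GrpObj C] [IsAbVar C] (f : B ⟶ C)
    (𝔓 : Ideal (𝓞 (AlgebraicClosure K))) : Prop :=
  ∃ (R : Type u) (_ : AddCommGroup R) (r : Pts B (AlgebraicClosure K) →+ R),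
    (∀ s ∈ inertia K 𝔓, s ∈ M.fixingSubgroup → ∀ x, r (act B s x) = r x) ∧
    ∀ x, onPts f x = 0 → r x = 0 → x = 0

/-- The elements of the decomposition group of `𝔓` in the kernel of `θ` act transitively on the
conjugates of `L`: for the field `K(θ)` which belongs to the kernel of `θ`, there is only one place
of `L K(θ)` above each place of `K(θ)` which lies below a conjugate of `𝔓`. -/
def OnePlaceFor (p : ℕ) (L : IntermediateField K (AlgebraicClosure K)) {B C : Over (Spec (.of K))}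
    [GrpObj B] [IsAbVar B] [GrpObj C] [IsAbVar C] (f : B ⟶ C)
    (𝔓 : Ideal (𝓞 (AlgebraicClosure K))) : Prop :=
  ∀ s : AlgebraicClosure K ≃ₐ[K] AlgebraicClosure K,
    ∃ t ∈ decomp K 𝔓, t⁻¹ * s ∈ L.fixingSubgroup ∧ ∃ i, ActsBy p f t i i

/-- `F(z) / F`, `z ^ p = a`, is unramified at the place of `F` below `𝔓` (for a field `F` containing
the `p`-th roots of unity). -/
def UnrRoot (p : ℕ) (F : IntermediateField K (AlgebraicClosure K))
    (𝔓 : Ideal (𝓞 (AlgebraicClosure K))) (a : AlgebraicClosure K) : Prop :=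
  ∀ s ∈ inertia K 𝔓, s ∈ F.fixingSubgroup → ∀ z, z ^ p = a → s z = z

/-- The valuation of `a` at the place of `F` below `𝔓` is divisible by `p`: `a = b ^ p x / y` with
`b` in `F` and algebraic integers `x`, `y` not in `𝔓`. -/
def ValRoot (p : ℕ) (F : IntermediateField K (AlgebraicClosure K))
    (𝔓 : Ideal (𝓞 (AlgebraicClosure K))) (a : AlgebraicClosure K) : Prop :=
  ∃ b ∈ F, b ≠ 0 ∧ ∃ x y : 𝓞 (AlgebraicClosure K), x ∉ 𝔓 ∧ y ∉ 𝔓 ∧
    a * (y : AlgebraicClosure K) = b ^ p * (x : AlgebraicClosure K)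

/-- Modulo `p`-th powers `a` lies in the `θ`-eigenspace of `Gal(Kbar/L)` on `(L M)^*`:
`s(a) ^ j = a ^ i z ^ p` with `z` in `L M`, if `ω(s) = i` and `χ(s) = j`. -/
def Eigen (p : ℕ) (L M : IntermediateField K (AlgebraicClosure K)) {B C : Over (Spec (.of K))}
    [GrpObj B] [IsAbVar B] [GrpObj C] [IsAbVar C] (f : B ⟶ C) (a : AlgebraicClosure K) : Prop :=
  ∀ s ∈ L.fixingSubgroup, ∀ i j : ℕ, ActsBy p f s i j → ∃ z ∈ L ⊔ M, s a ^ j = a ^ i * z ^ p

/-- Every `a ≠ 0` in the `θ`-eigenspace of `(L M)^*` modulo `p`-th powers, such that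
`L M(a ^ (1/p)) / L M` is unramified at all finite places, comes from `M`: it is the product of an
element of `M` and a `p`-th power. -/
def UnrFromBase (p : ℕ) (L M : IntermediateField K (AlgebraicClosure K))
    {B C : Over (Spec (.of K))} [GrpObj B] [IsAbVar B] [GrpObj C] [IsAbVar C] (f : B ⟶ C) : Prop :=
  ∀ a ∈ L ⊔ M, a ≠ 0 → Eigen p L M f a →
    (∀ 𝔓 : Ideal (𝓞 (AlgebraicClosure K)), FinPrime 𝔓 → UnrRoot p (L ⊔ M) 𝔓 a) →
    ∃ b ∈ M, ∃ z ∈ L ⊔ M, a = b * z ^ p

/-- `a` is mapped to a positive real number by every embedding of `Kbar` in `ℂ` which maps `F` to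
real numbers: an element `a` of `F` is positive at all real places of `F`. -/
def PosAtReal (F : IntermediateField K (AlgebraicClosure K)) (a : AlgebraicClosure K) : Prop :=
  ∀ e : AlgebraicClosure K →+* ℂ, (∀ x ∈ F, starRingEnd ℂ (e x) = e x) → ∃ t : ℝ, 0 < t ∧ e a = t

/-- Every `a ≠ 0` in the `θ`-eigenspace of `(L M)^*` modulo `p`-th powers, such that
`L M(a ^ (1/p)) / L M` is unramified outside `p`, `a` has valuations divisible by `p` at the places
above `p` and `a` is positive at the real places of `L M` if `f` has real fibres, comes from `M`: it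
is the product of an element of `M` and a `p`-th power. (For odd `p` there are no real places, as
`M` contains the `p`-th roots of unity.) -/
def ValFromBase (p : ℕ) (L M : IntermediateField K (AlgebraicClosure K))
    {B C : Over (Spec (.of K))} [GrpObj B] [IsAbVar B] [GrpObj C] [IsAbVar C] (f : B ⟶ C) : Prop :=
  ∀ a ∈ L ⊔ M, a ≠ 0 → Eigen p L M f a →
    (∀ 𝔓 : Ideal (𝓞 (AlgebraicClosure K)), FinPrime 𝔓 → (p : 𝓞 (AlgebraicClosure K)) ∉ 𝔓 →
      UnrRoot p (L ⊔ M) 𝔓 a) →
    (∀ 𝔓 : Ideal (𝓞 (AlgebraicClosure K)), FinPrime 𝔓 → (p : 𝓞 (AlgebraicClosure K)) ∈ 𝔓 →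
      ValRoot p (L ⊔ M) 𝔓 a) →
    (RealFibres f → PosAtReal (L ⊔ M) a) →
    ∃ b ∈ M, ∃ z ∈ L ⊔ M, a = b * z ^ p

/-- `f : B → C` is an isogeny with cyclic kernel of order `p`, consisting of points of `B(M)`. At
each finite place not above `p` its kernel is etale over `M`, or there is one place of `L K(θ)` above
each place of `K(θ)`. (I) The kernel is etale over `M` at the places above `p` and `UnrFromBase`
holds, or (II) the condition on the places of `L K(θ)` holds for the places above `p`, and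
`ValFromBase` holds. -/
structure StepFor (p : ℕ) (L M : IntermediateField K (AlgebraicClosure K))
    {B C : Over (Spec (.of K))} [GrpObj B] [IsAbVar B] [GrpObj C] [IsAbVar C] (f : B ⟶ C) :
    Prop where
  hom : IsMonHom f
  surj : ∀ y, ∃ x, onPts f x = y
  ker : ∃ t, t ≠ 0 ∧ p • t = 0 ∧ ∀ x, onPts f x = 0 ↔ ∃ j : ℕ, x = j • t
  fixed : ∀ s ∈ M.fixingSubgroup, ∀ x, onPts f x = 0 → act B s x = x
  prime : ∀ 𝔓 : Ideal (𝓞 (AlgebraicClosure K)), FinPrime 𝔓 → (p : 𝓞 (AlgebraicClosure K)) ∉ 𝔓 →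
    EtaleOver M f 𝔓 ∨ OnePlaceFor p L f 𝔓
  type : ((∀ 𝔓 : Ideal (𝓞 (AlgebraicClosure K)), FinPrime 𝔓 → (p : 𝓞 (AlgebraicClosure K)) ∈ 𝔓 →
      EtaleOver M f 𝔓) ∧ UnrFromBase p L M f) ∨
    ((∀ 𝔓 : Ideal (𝓞 (AlgebraicClosure K)), FinPrime 𝔓 → (p : 𝓞 (AlgebraicClosure K)) ∈ 𝔓 →
      OnePlaceFor p L f 𝔓) ∧ ValFromBase p L M f)

/-- Compositions of isogenies `f` of degree `p` with `StepFor p L M f`. -/
inductive StepsFor (p : ℕ) (L M : IntermediateField K (AlgebraicClosure K))
    (A : Over (Spec (.of K))) [GrpObj A] [IsAbVar A] :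
    (B : Over (Spec (.of K))) → [GrpObj B] → [IsAbVar B] → (A ⟶ B) → Prop
  | refl : StepsFor p L M A A (𝟙 A)
  | step {B C : Over (Spec (.of K))} [GrpObj B] [IsAbVar B] [GrpObj C] [IsAbVar C] (h : A ⟶ B)
      (f : B ⟶ C) : StepsFor p L M A B h → StepFor p L M f → StepsFor p L M A C (h ≫ f)

end field

end Pool.Agent.H.MP_ac3185_nt
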