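import Pool.Agent.H.MP_ac3185_nt.V.Norm

/-! Kummer theory for cyclic extensions of prime degree. -/

set_option autoImplicit false

open NumberField IsDedekindDomain

namespace Pool.Agent.H.MP_ac3185_nt

universe u

section resolvent

theorem wp_pow_modEq {M : Type*} [Field M] {p : ℕ} {ζ : M} (hζ : IsPrimitiveRoot ζ p) {a b : ℕ}
    (h : a ≡ b [MOD p]) : ζ ^ a = ζ ^ b := by
  rw [← Nat.div_add_mod a p, ← Nat.div_add_mod b p, pow_add, pow_add, pow_mul, pow_mul,
    hζ.pow_eq_one, one_pow, one_pow, h]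

theorem wp_modEq {M : Type*} [Field M] {p : ℕ} {ζ : M} (hp : 0 < p) (hζ : IsPrimitiveRoot ζ p)
    {a b : ℕ} (h : ζ ^ a = ζ ^ b) : a ≡ b [MOD p] := by
  have h1 : ∀ c : ℕ, ζ ^ c = ζ ^ (c % p) := fun c => wp_pow_modEq hζ (Nat.mod_modEq c p).symm
  rw [h1 a, h1 b] at h
  exact hζ.pow_inj (Nat.mod_lt _ hp) (Nat.mod_lt _ hp) h

/-- Lagrange resolvents: if `σ ^ p` fixes `z`, `σ` fixes `ζ`, and `σ z ≠ z`, some resolvent
`∑ ζ ^ (- i j) σ ^ j z` with `i` prime to `p` is not zero. -/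
theorem wp_resolvent {M : Type*} [Field M] [CharZero M] (σ : M ≃+* M) (p : ℕ) (hp : p.Prime) (ζ : M)
    (hζ : IsPrimitiveRoot ζ p) (hσζ : σ ζ = ζ) (z : M) (hz : (σ ^ p) z = z) (hne : σ z ≠ z) :
    ∃ i : ℕ, i.Coprime p ∧ (∑ j ∈ Finset.range p, ζ⁻¹ ^ (i * j) * (σ ^ j) z) ≠ 0 ∧
      σ (∑ j ∈ Finset.range p, ζ⁻¹ ^ (i * j) * (σ ^ j) z) =
        ζ ^ i * ∑ j ∈ Finset.range p, ζ⁻¹ ^ (i * j) * (σ ^ j) z := by
  classical
  have hζ0 : ζ ≠ 0 := hζ.ne_zero hp.ne_zero
  have hp0 : 0 < p := hp.pos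
  set R : ℕ → M := fun i => ∑ j ∈ Finset.range p, ζ⁻¹ ^ (i * j) * (σ ^ j) z with hR
  have hσR : ∀ i, σ (R i) = ζ ^ i * R i := by
    intro i
    have h1 : σ (R i) = ∑ j ∈ Finset.range p, ζ ^ i * (ζ⁻¹ ^ (i * (j + 1)) * (σ ^ (j + 1)) z) := by
      rw [hR]
      simp only [map_sum, map_mul, map_pow, map_inv₀, hσζ]
      refine Finset.sum_congr rfl fun j _ => ?_
      have h2 : ζ ^ i * ζ⁻¹ ^ (i * (j + 1)) = ζ⁻¹ ^ (i * j) := by
        rw [mul_add, mul_one, pow_add, mul_comm (ζ⁻¹ ^ (i * j)), ← mul_assoc, inv_pow,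
          mul_inv_cancel₀ (pow_ne_zero _ hζ0), one_mul]
      rw [← mul_assoc, h2, pow_succ' σ]
      rfl
    rw [h1, ← Finset.mul_sum]
    congr 1
    have h3 := Finset.sum_range_succ (fun j => ζ⁻¹ ^ (i * j) * (σ ^ j) z) p
    have h4 := Finset.sum_range_succ' (fun j => ζ⁻¹ ^ (i * j) * (σ ^ j) z) p
    rw [h3] at h4
    have h5 : ζ⁻¹ ^ (i * p) * (σ ^ p) z = ζ⁻¹ ^ (i * 0) * (σ ^ 0) z := by
      rw [hz, mul_comm i p, pow_mul, inv_pow, hζ.pow_eq_one]
      simp
    rw [h5] at h4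
    exact (add_right_cancel h4).symm
  have hsum : ∑ i ∈ Finset.range p, R i = (p : M) * z := by
    rw [hR]
    rw [Finset.sum_comm]
    have h1 : ∀ j ∈ Finset.range p, ∑ i ∈ Finset.range p, ζ⁻¹ ^ (i * j) * (σ ^ j) z =
        if j = 0 then (p : M) * z else 0 := by
      intro j hj
      rw [← Finset.sum_mul]
      by_cases h0 : j = 0
      · subst h0
        simp
      · rw [if_neg h0]
        have hprim : IsPrimitiveRoot (ζ⁻¹ ^ j) p := by
          apply hζ.inv.pow_of_coprime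
          refine Nat.Coprime.symm ((Nat.Prime.coprime_iff_not_dvd hp).2 fun hd => ?_)
          have h2 := Nat.le_of_dvd (Nat.pos_of_ne_zero h0) hd
          have h3 := Finset.mem_range.1 hj
          omega
        have h2 : ∑ i ∈ Finset.range p, ζ⁻¹ ^ (i * j) = ∑ i ∈ Finset.range p, (ζ⁻¹ ^ j) ^ i := by
          refine Finset.sum_congr rfl fun i _ => ?_
          rw [← pow_mul, mul_comm]
        rw [h2, hprim.geom_sum_eq_zero hp.one_lt, zero_mul]
    rw [Finset.sum_congr rfl h1, Finset.sum_ite_eq' (Finset.range p) 0]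
    rw [if_pos (Finset.mem_range.2 hp0)]
  by_contra hcon
  push Not at hcon
  have h0 : ∀ i ∈ Finset.range p, i ≠ 0 → R i = 0 := by
    intro i hi hi0
    by_contra hRi
    refine hcon i ?_ hRi (hσR i)
    refine Nat.Coprime.symm ((Nat.Prime.coprime_iff_not_dvd hp).2 fun hd => ?_)
    have h2 := Nat.le_of_dvd (Nat.pos_of_ne_zero hi0) hd
    have h3 := Finset.mem_range.1 hi
    omega
  have h1 : R 0 = (p : M) * z := by
    rw [← hsum]
    rw [Finset.sum_eq_single 0 h0]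
    intro h
    exact absurd (Finset.mem_range.2 hp0) h
  have h2 := hσR 0
  rw [pow_zero, one_mul, h1, map_mul, map_natCast] at h2
  exact hne (mul_left_cancel₀ (Nat.cast_ne_zero.2 hp.ne_zero) h2)

end resolvent

section kummer

variable {K : Type u} [Field K] [CharZero K]

/-- A cyclic extension of prime degree `p` of a field `F` which contains the `p`-th roots of unity
is generated by a `p`-th root. -/
theorem wp_kummer (p : ℕ) (hp : p.Prime) (ζ : AlgebraicClosure K) (hζ : IsPrimitiveRoot ζ p)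
    (F : IntermediateField K (AlgebraicClosure K)) [FiniteDimensional K F] (hζF : ζ ∈ F)
    (E : IntermediateField K (AlgebraicClosure K)) [FiniteDimensional K E]
    (N : Subgroup (AlgebraicClosure K ≃ₐ[K] AlgebraicClosure K)) (hN : N ≤ F.fixingSubgroup)
    (hE : ∀ s ∈ F.fixingSubgroup, s ∈ E.fixingSubgroup → s ∈ N)
    (σ : AlgebraicClosure K ≃ₐ[K] AlgebraicClosure K) (hσ : σ ∈ F.fixingSubgroup) (hσN : σ ∉ N)
    (hσp : σ ^ p ∈ N) (hconj : ∀ n ∈ N, σ⁻¹ * n * σ ∈ N) :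
    ∃ r : AlgebraicClosure K, r ≠ 0 ∧ (∀ s ∈ N, s r = r) ∧ σ r = ζ * r := by
  have hopen : IsOpen (N : Set (AlgebraicClosure K ≃ₐ[K] AlgebraicClosure K)) := by
    have h1 : (F ⊔ E).fixingSubgroup ≤ N := by
      rw [IntermediateField.fixingSubgroup_sup]
      intro s hs
      exact hE s hs.1 hs.2
    have : FiniteDimensional K (F ⊔ E : IntermediateField K (AlgebraicClosure K)) :=
      IntermediateField.finiteDimensional_sup F E
    exact Subgroup.isOpen_mono h1 (IntermediateField.fixingSubgroup_isOpen _)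
  have hclosed := N.isClosed_of_isOpen hopen
  have hfix := InfiniteGalois.fixingSubgroup_fixedField
    (⟨N, hclosed⟩ : ClosedSubgroup (AlgebraicClosure K ≃ₐ[K] AlgebraicClosure K))
  obtain ⟨z, hz, hzt⟩ : ∃ z, (∀ s ∈ N, s z = z) ∧ σ z ≠ z := by
    by_contra hcon
    push Not at hcon
    apply hσN
    have h3 : σ ∈ (IntermediateField.fixedField N).fixingSubgroup := by
      rw [IntermediateField.mem_fixingSubgroup_iff]
      intro z hz
      rw [IntermediateField.mem_fixedField_iff] at hz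
      exact hcon z hz
    have h4 : (IntermediateField.fixedField N).fixingSubgroup = N := hfix
    rwa [h4] at h3
  have hpow : ∀ j : ℕ, ((σ : AlgebraicClosure K ≃+* AlgebraicClosure K) ^ j) z = (σ ^ j) z := by
    intro j
    induction j with
    | zero => rfl
    | succ j ih =>
      rw [pow_succ', pow_succ']
      show σ (((σ : AlgebraicClosure K ≃+* AlgebraicClosure K) ^ j) z) = σ ((σ ^ j) z)
      rw [ih]
  have hσζ : σ ζ = ζ := vn_fix F hζF hσ
  obtain ⟨i, hi, hne, hσR⟩ := wp_resolvent (σ : AlgebraicClosure K ≃+* AlgebraicClosure K) p hp ζ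
    hζ hσζ z (by rw [hpow]; exact hz _ hσp) hzt
  set R := ∑ j ∈ Finset.range p,
    ζ⁻¹ ^ (i * j) * ((σ : AlgebraicClosure K ≃+* AlgebraicClosure K) ^ j) z with hR
  have hconj' : ∀ j : ℕ, ∀ n ∈ N, (σ ^ j)⁻¹ * n * σ ^ j ∈ N := by
    intro j
    induction j with
    | zero => intro n hn; simpa using hn
    | succ j ih =>
      intro n hn
      have h1 := hconj _ (ih n hn)
      have h2 : (σ ^ (j + 1))⁻¹ * n * σ ^ (j + 1) = σ⁻¹ * ((σ ^ j)⁻¹ * n * σ ^ j) * σ := by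
        rw [pow_succ]
        group
      rw [h2]
      exact h1
  have hNR : ∀ s ∈ N, s R = R := by
    intro s hs
    rw [hR, map_sum]
    refine Finset.sum_congr rfl fun j _ => ?_
    rw [map_mul, map_pow, map_inv₀, vn_fix F hζF (hN hs), hpow]
    congr 1
    have h1 := hz _ (hconj' j s hs)
    have h2 := congrArg (σ ^ j) h1
    rw [← AlgEquiv.mul_apply] at h2
    have h3 : σ ^ j * ((σ ^ j)⁻¹ * s * σ ^ j) = s * σ ^ j := by group
    rw [h3, AlgEquiv.mul_apply] at h2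
    exact h2
  obtain ⟨u, hu⟩ : ∃ u : ℕ, i * u ≡ 1 [MOD p] := by
    obtain ⟨u, hu⟩ := Nat.exists_mul_mod_eq_one_of_coprime hi hp.one_lt
    refine ⟨u, ?_⟩
    rw [Nat.ModEq, hu.2, Nat.mod_eq_of_lt hp.one_lt]
  refine ⟨R ^ u, pow_ne_zero _ hne, fun s hs => by rw [map_pow, hNR s hs], ?_⟩
  have h1 : σ R = ζ ^ i * R := hσR
  rw [map_pow, h1, mul_pow, ← pow_mul]
  congr 1
  have h2 : ζ ^ (i * u) = ζ ^ 1 := wp_pow_modEq hζ hu
  rw [h2, pow_one]

end kummer

end Pool.Agent.H.MP_ac3185_nt
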