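import Pool.Agent.H.MP_ac3185_nt.V.Act
import Pool.Agent.H.MP_ac3185_nt.V.Chain
import Pool.Agent.H.MP_ac3185_nt.helper85.Kum

/-! Sums over cosets of points and products over cosets of elements of the algebraic closure. -/

set_option autoImplicit false

open CategoryTheory AlgebraicGeometry NumberField IsDedekindDomain
open scoped MonObj

namespace Pool.Agent.H.MP_ac3185_nt

universe u

section gal

variable {K : Type u} [Field K] [CharZero K]

omit [CharZero K] in
theorem wp_normal (M : IntermediateField K (AlgebraicClosure K)) [Normal K M] :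
    M.fixingSubgroup.Normal := by
  rw [← IntermediateField.restrictNormalHom_ker]
  infer_instance

/-- `Gal(Kbar/K) = Gal(Kbar/M) Gal(Kbar/L)` if `M` is normal and `L ∩ M = K`. -/
theorem wp_cop (L M : IntermediateField K (AlgebraicClosure K)) [FiniteDimensional K L]
    [FiniteDimensional K M] [Normal K M] (h : L ⊓ M = ⊥)
    (s : AlgebraicClosure K ≃ₐ[K] AlgebraicClosure K) :
    ∃ t ∈ M.fixingSubgroup, t⁻¹ * s ∈ L.fixingSubgroup := by
  set H : Subgroup (AlgebraicClosure K ≃ₐ[K] AlgebraicClosure K) :=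
    M.fixingSubgroup ⊔ L.fixingSubgroup with hH
  have hopen : IsOpen (H : Set (AlgebraicClosure K ≃ₐ[K] AlgebraicClosure K)) :=
    Subgroup.isOpen_mono (le_sup_left : M.fixingSubgroup ≤ H)
      (IntermediateField.fixingSubgroup_isOpen _)
  have hclosed := H.isClosed_of_isOpen hopen
  have hfix := InfiniteGalois.fixingSubgroup_fixedField
    (⟨H, hclosed⟩ : ClosedSubgroup (AlgebraicClosure K ≃ₐ[K] AlgebraicClosure K))
  have h1 : IntermediateField.fixedField H = ⊥ := by
    rw [eq_bot_iff, ← h]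
    intro x hx
    rw [IntermediateField.mem_fixedField_iff] at hx
    exact ⟨vn_mem L fun s hs => hx s (Subgroup.mem_sup_right hs),
      vn_mem M fun s hs => hx s (Subgroup.mem_sup_left hs)⟩
  have h2 : H = ⊤ := by
    have h3 : (IntermediateField.fixedField H).fixingSubgroup = H := hfix
    rw [← h3, h1, IntermediateField.fixingSubgroup_bot]
  have h4 : s ∈ H := by
    rw [h2]
    exact Subgroup.mem_top s
  have hnorm : M.fixingSubgroup.Normal := wp_normal M
  rw [hH, Subgroup.mem_sup_of_normal_left] at h4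
  obtain ⟨t, ht, g, hg, rfl⟩ := h4
  exact ⟨t, ht, by simpa using hg⟩

/-- Representatives of the cosets of `H` in a subgroup `N`. -/
theorem wp_reps {G : Type*} [Group G] (H N : Subgroup G) (h : ∀ s : G, ∃ t ∈ N, t⁻¹ * s ∈ H) :
    ∃ T : G ⧸ H → G, ∀ q, (T q : G ⧸ H) = q ∧ T q ∈ N := by
  have h1 : ∀ q : G ⧸ H, ∃ t : G, (t : G ⧸ H) = q ∧ t ∈ N := by
    intro q
    obtain ⟨t, ht, hts⟩ := h q.out
    refine ⟨t, ?_, ht⟩
    rw [← QuotientGroup.out_eq' q, QuotientGroup.eq]
    simpa using hts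
  choose T hT using h1
  exact ⟨T, hT⟩

theorem wp_perm {G : Type*} [Group G] (H : Subgroup G) (T : G ⧸ H → G)
    (hT : ∀ q, (T q : G ⧸ H) = q) (s : G) (q : G ⧸ H) : (T (s • q))⁻¹ * s * T q ∈ H := by
  rw [mul_assoc, ← QuotientGroup.eq, hT, ← smul_eq_mul, ← MulAction.Quotient.smul_coe, hT]

end gal

section pair

variable {K : Type u} [Field K] {B C : Over (Spec (.of K))} [GrpObj B] [IsAbVar B] [GrpObj C]
  [IsAbVar C]

theorem wp_act_nsmul (s : AlgebraicClosure K ≃ₐ[K] AlgebraicClosure K) (m : ℕ)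
    (x : Pts B (AlgebraicClosure K)) : act B s (m • x) = m • act B s x :=
  map_nsmul (galHom B s) m x

theorem wp_act_sum {J : Type*} (S : Finset J) (s : AlgebraicClosure K ≃ₐ[K] AlgebraicClosure K)
    (x : J → Pts B (AlgebraicClosure K)) :
    act B s (∑ q ∈ S, x q) = ∑ q ∈ S, act B s (x q) :=
  map_sum (galHom B s) x S

/-- `s` translates `x` by a multiple `j t` and multiplies `r` by the same power `ζ ^ j`. -/
def Mt (t : Pts B (AlgebraicClosure K)) (ζ : AlgebraicClosure K)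
    (s : AlgebraicClosure K ≃ₐ[K] AlgebraicClosure K) (x : Pts B (AlgebraicClosure K))
    (r : AlgebraicClosure K) : Prop :=
  ∃ j : ℕ, act B s x = x + j • t ∧ s r = ζ ^ j * r

variable {t : Pts B (AlgebraicClosure K)} {ζ : AlgebraicClosure K}

theorem wm_add {s : AlgebraicClosure K ≃ₐ[K] AlgebraicClosure K} {x y : Pts B (AlgebraicClosure K)}
    {r q : AlgebraicClosure K} (h1 : Mt t ζ s x r) (h2 : Mt t ζ s y q) :
    Mt t ζ s (x + y) (r * q) := by
  obtain ⟨i, hi, hi'⟩ := h1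
  obtain ⟨j, hj, hj'⟩ := h2
  refine ⟨i + j, ?_, ?_⟩
  · rw [va_add, hi, hj, add_nsmul]
    abel
  · rw [map_mul, hi', hj', pow_add]
    ring

theorem wm_smul {s : AlgebraicClosure K ≃ₐ[K] AlgebraicClosure K} {x : Pts B (AlgebraicClosure K)}
    {r : AlgebraicClosure K} (h1 : Mt t ζ s x r) (m : ℕ) : Mt t ζ s (m • x) (r ^ m) := by
  obtain ⟨i, hi, hi'⟩ := h1
  refine ⟨m * i, ?_, ?_⟩
  · rw [wp_act_nsmul, hi, nsmul_add, mul_comm, mul_nsmul]
  · rw [map_pow, hi', mul_pow, ← pow_mul, mul_comm i m]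

/-- The sum of the conjugates of `x` over the cosets of `H` is fixed by `s`. -/
theorem wf_sum {H : Subgroup (AlgebraicClosure K ≃ₐ[K] AlgebraicClosure K)}
    [Fintype ((AlgebraicClosure K ≃ₐ[K] AlgebraicClosure K) ⧸ H)]
    (T : (AlgebraicClosure K ≃ₐ[K] AlgebraicClosure K) ⧸ H →
      AlgebraicClosure K ≃ₐ[K] AlgebraicClosure K) (x : Pts B (AlgebraicClosure K))
    (s : AlgebraicClosure K ≃ₐ[K] AlgebraicClosure K)
    (h : ∀ q, act B ((T (s • q))⁻¹ * s * T q) x = x) :
    act B s (∑ q, act B (T q) x) = ∑ q, act B (T q) x := by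
  rw [wp_act_sum]
  have h1 : ∀ q, act B s (act B (T q) x) = act B (T (s • q)) x := by
    intro q
    have h2 : s * T q = T (s • q) * ((T (s • q))⁻¹ * s * T q) := by group
    rw [← va_mul, h2, va_mul, h q]
  rw [Finset.sum_congr rfl fun q _ => h1 q]
  exact Equiv.sum_comp (MulAction.toPerm s) (fun q => act B (T q) x)

theorem wf_prod {H : Subgroup (AlgebraicClosure K ≃ₐ[K] AlgebraicClosure K)}
    [Fintype ((AlgebraicClosure K ≃ₐ[K] AlgebraicClosure K) ⧸ H)]
    (T : (AlgebraicClosure K ≃ₐ[K] AlgebraicClosure K) ⧸ H →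
      AlgebraicClosure K ≃ₐ[K] AlgebraicClosure K) (r : AlgebraicClosure K)
    (s : AlgebraicClosure K ≃ₐ[K] AlgebraicClosure K)
    (h : ∀ q, ((T (s • q))⁻¹ * s * T q) r = r) :
    s (∏ q, (T q) r) = ∏ q, (T q) r := by
  rw [map_prod]
  have h1 : ∀ q, s ((T q) r) = (T (s • q)) r := by
    intro q
    have h2 : s * T q = T (s • q) * ((T (s • q))⁻¹ * s * T q) := by group
    rw [← AlgEquiv.mul_apply, h2, AlgEquiv.mul_apply, h q]
  rw [Finset.prod_congr rfl fun q _ => h1 q]
  exact Equiv.prod_comp (MulAction.toPerm s) (fun q => (T q) r)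

/-- The trace of `x` and the norm of `r`. -/
theorem wm_trace {H N : Subgroup (AlgebraicClosure K ≃ₐ[K] AlgebraicClosure K)}
    [Fintype ((AlgebraicClosure K ≃ₐ[K] AlgebraicClosure K) ⧸ H)]
    (T : (AlgebraicClosure K ≃ₐ[K] AlgebraicClosure K) ⧸ H →
      AlgebraicClosure K ≃ₐ[K] AlgebraicClosure K)
    (hT : ∀ q, (T q : (AlgebraicClosure K ≃ₐ[K] AlgebraicClosure K) ⧸ H) = q ∧ T q ∈ N)
    (htN : ∀ s ∈ N, act B s t = t) (hζN : ∀ s ∈ N, s ζ = ζ)
    (x : Pts B (AlgebraicClosure K)) (r : AlgebraicClosure K)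
    (h : ∀ s ∈ H, s ∈ N → Mt t ζ s x r) (s : AlgebraicClosure K ≃ₐ[K] AlgebraicClosure K)
    (hs : s ∈ N) : Mt t ζ s (∑ q, act B (T q) x) (∏ q, (T q) r) := by
  classical
  have h1 : ∀ q, ∃ j : ℕ, act B ((T (s • q))⁻¹ * s * T q) x = x + j • t ∧
      ((T (s • q))⁻¹ * s * T q) r = ζ ^ j * r := fun q =>
    h _ (wp_perm H T (fun q => (hT q).1) s q)
      (mul_mem (mul_mem (inv_mem (hT _).2) hs) (hT q).2)
  choose j hj hj' using h1
  refine ⟨∑ q, j q, ?_, ?_⟩
  · rw [wp_act_sum]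
    have h2 : ∀ q, act B s (act B (T q) x) = act B (T (s • q)) x + j q • t := by
      intro q
      have h3 : s * T q = T (s • q) * ((T (s • q))⁻¹ * s * T q) := by group
      rw [← va_mul, h3, va_mul, hj, va_add, wp_act_nsmul, htN _ (hT _).2]
    rw [Finset.sum_congr rfl fun q _ => h2 q, Finset.sum_add_distrib, Finset.sum_smul]
    congr 1
    exact Equiv.sum_comp (MulAction.toPerm s) (fun q => act B (T q) x)
  · rw [map_prod]
    have h2 : ∀ q, s ((T q) r) = ζ ^ j q * (T (s • q)) r := by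
      intro q
      have h3 : s * T q = T (s • q) * ((T (s • q))⁻¹ * s * T q) := by group
      rw [← AlgEquiv.mul_apply, h3, AlgEquiv.mul_apply, hj', map_mul, map_pow, hζN _ (hT _).2]
    rw [Finset.prod_congr rfl fun q _ => h2 q, Finset.prod_mul_distrib, Finset.prod_pow_eq_pow_sum]
    congr 1
    exact Equiv.prod_comp (MulAction.toPerm s) (fun q => (T q) r)

end pair

end Pool.Agent.H.MP_ac3185_nt
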