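import Pool.Agent.H.MP_ac3185_nt.V.Fin
import Pool.Agent.H.MP_ac3185_nt.helper85.Pair
import Pool.Agent.H.MP_ac3185_nt.helper85.Defs

/-! The Kummer generator attached to a point, for an isogeny with cyclic kernel of order `p`. -/

set_option autoImplicit false

open CategoryTheory AlgebraicGeometry NumberField IsDedekindDomain
open scoped MonObj

namespace Pool.Agent.H.MP_ac3185_nt

universe u

section core

variable {K : Type u} [Field K] {B C : Over (Spec (.of K))} [GrpObj B] [IsAbVar B] [GrpObj C]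
  [IsAbVar C] {f : B ⟶ C} {p : ℕ} {t : Pts B (AlgebraicClosure K)} {ζ : AlgebraicClosure K}

theorem wc_order (hp : p.Prime) (ht0 : t ≠ 0) (htp : p • t = 0) : addOrderOf t = p := by
  have : Fact p.Prime := ⟨hp⟩
  exact addOrderOf_eq_prime htp ht0

theorem wc_modEq (hp : p.Prime) (ht0 : t ≠ 0) (htp : p • t = 0) {i j : ℕ} (h : i • t = j • t) :
    i ≡ j [MOD p] := by
  have h1 := (nsmul_eq_nsmul_iff_modEq).1 h
  rwa [wc_order hp ht0 htp] at h1

theorem wc_eq (hp : p.Prime) (ht0 : t ≠ 0) (htp : p • t = 0) {i j : ℕ} (h : i ≡ j [MOD p]) :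
    i • t = j • t := by
  rw [nsmul_eq_nsmul_iff_modEq, wc_order hp ht0 htp]
  exact h

/-- If `s` matches `(x, r)`, then `s x = x` if and only if `s r = r`. -/
theorem wc_iff (hp : p.Prime) (ht0 : t ≠ 0) (htp : p • t = 0) (hζ : IsPrimitiveRoot ζ p)
    {s : AlgebraicClosure K ≃ₐ[K] AlgebraicClosure K} {x : Pts B (AlgebraicClosure K)}
    {r : AlgebraicClosure K} (hr : r ≠ 0) (h : Mt t ζ s x r) : act B s x = x ↔ s r = r := by
  obtain ⟨j, hj, hj'⟩ := h
  constructor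
  · intro h1
    rw [h1] at hj
    have h2 : j • t = (0 : ℕ) • t := by
      rw [zero_nsmul]
      exact left_eq_add.1 hj
    rw [hj', wp_pow_modEq hζ (wc_modEq hp ht0 htp h2), pow_zero, one_mul]
  · intro h1
    rw [h1] at hj'
    have h2 : ζ ^ j = ζ ^ 0 := by
      rw [pow_zero]
      exact (mul_left_eq_self₀.1 hj'.symm).resolve_right hr
    rw [hj, wc_eq hp ht0 htp (wp_modEq hp.pos hζ h2), zero_nsmul, add_zero]

theorem wc_cases (hf : IsMonHom f) (hker : ∀ x, onPts f x = 0 ↔ ∃ j : ℕ, x = j • t)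
    (F : Subgroup (AlgebraicClosure K ≃ₐ[K] AlgebraicClosure K))
    (b : Pts B (AlgebraicClosure K)) (hb : ∀ s ∈ F, act C s (onPts f b) = onPts f b)
    (s : AlgebraicClosure K ≃ₐ[K] AlgebraicClosure K) (hs : s ∈ F) :
    ∃ j : ℕ, act B s b = b + j • t := by
  have h1 : onPts f (act B s b - b) = 0 := by
    rw [vh_sub f hf, ← vh_act, hb s hs, sub_self]
  obtain ⟨j, hj⟩ := (hker _).1 h1
  exact ⟨j, by rw [← hj]; abel⟩

/-- There is `r` such that all elements of the Galois group of `F` match `(b, r)`. -/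
theorem wc_root [CharZero K] (hp : p.Prime) (hf : IsMonHom f) (ht0 : t ≠ 0) (htp : p • t = 0)
    (hker : ∀ x, onPts f x = 0 ↔ ∃ j : ℕ, x = j • t) (hζ : IsPrimitiveRoot ζ p)
    (F : IntermediateField K (AlgebraicClosure K)) [FiniteDimensional K F] (hζF : ζ ∈ F)
    (htF : ∀ s ∈ F.fixingSubgroup, act B s t = t)
    (b : Pts B (AlgebraicClosure K))
    (hb : ∀ s ∈ F.fixingSubgroup, act C s (onPts f b) = onPts f b) :
    ∃ r : AlgebraicClosure K, r ≠ 0 ∧ ∀ s ∈ F.fixingSubgroup, Mt t ζ s b r := by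
  have hcase := wc_cases hf hker F.fixingSubgroup b hb
  by_cases hall : ∀ s ∈ F.fixingSubgroup, act B s b = b
  · exact ⟨1, one_ne_zero, fun s hs => ⟨0, by rw [hall s hs, zero_nsmul, add_zero], by simp⟩⟩
  push Not at hall
  obtain ⟨s₀, hs₀, hne⟩ := hall
  obtain ⟨j₀, hj₀⟩ := hcase s₀ hs₀
  have hpow : ∀ (s : AlgebraicClosure K ≃ₐ[K] AlgebraicClosure K) (i : ℕ), s ∈ F.fixingSubgroup →
      act B s b = b + i • t → ∀ n : ℕ, act B (s ^ n) b = b + (n * i) • t := by
    intro s i hs h n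
    induction n with
    | zero => rw [pow_zero, va_one, zero_mul, zero_nsmul, add_zero]
    | succ n ih =>
      rw [pow_succ', va_mul, ih, va_add, wp_act_nsmul, htF s hs, h, add_mul, one_mul, add_nsmul]
      abel
  have hcop : j₀.Coprime p := by
    refine Nat.Coprime.symm ((Nat.Prime.coprime_iff_not_dvd hp).2 fun hd => hne ?_)
    have h1 : j₀ ≡ 0 [MOD p] := (Nat.modEq_zero_iff_dvd).2 hd
    rw [hj₀, wc_eq hp ht0 htp h1, zero_nsmul, add_zero]
  obtain ⟨u, hu⟩ := Nat.exists_mul_mod_eq_one_of_coprime hcop hp.one_lt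
  have hu' : u * j₀ ≡ 1 [MOD p] := by
    rw [Nat.ModEq, mul_comm, hu.2, Nat.mod_eq_of_lt hp.one_lt]
  set σ := s₀ ^ u with hσ
  have hσF : σ ∈ F.fixingSubgroup := pow_mem hs₀ u
  have hσb : act B σ b = b + t := by
    rw [hσ, hpow s₀ j₀ hs₀ hj₀, wc_eq hp ht0 htp hu', one_nsmul]
  have hσb' : ∀ n : ℕ, act B (σ ^ n) b = b + n • t := by
    intro n
    rw [hpow σ 1 hσF (by rw [hσb, one_nsmul]), mul_one]
  let N : Subgroup (AlgebraicClosure K ≃ₐ[K] AlgebraicClosure K) :=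
    { carrier := {s | s ∈ F.fixingSubgroup ∧ act B s b = b}
      one_mem' := ⟨one_mem _, va_one b⟩
      mul_mem' := fun {s s'} hs hs' => ⟨mul_mem hs.1 hs'.1, by rw [va_mul, hs'.2, hs.2]⟩
      inv_mem' := fun {s} hs => ⟨inv_mem hs.1, by
        have h := congrArg (act B s⁻¹) hs.2
        rw [va_inv] at h
        exact h.symm⟩ }
  obtain ⟨E, hE, hEb⟩ := vf_finite B b
  obtain ⟨r, hr0, hrN, hrσ⟩ := wp_kummer p hp ζ hζ F hζF E N (fun s hs => hs.1)
    (fun s hs hs' => ⟨hs, hEb s hs'⟩) σ hσF (fun h => ht0 (by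
      have h1 : act B σ b = b := h.2
      rw [hσb] at h1
      exact add_eq_left.1 h1))
    ⟨pow_mem hσF p, by rw [hσb', htp, add_zero]⟩ (fun n hn =>
      ⟨mul_mem (mul_mem (inv_mem hσF) hn.1) hσF, by
        rw [va_mul, va_mul, hσb, va_add, hn.2, htF n hn.1, ← hσb, va_inv]⟩)
  have hσr : ∀ n : ℕ, (σ ^ n) r = ζ ^ n * r := by
    intro n
    induction n with
    | zero => simp
    | succ n ih =>
      rw [pow_succ', AlgEquiv.mul_apply, ih, map_mul, map_pow, vn_fix F hζF hσF, hrσ, pow_succ]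
      ring
  refine ⟨r, hr0, fun s hs => ?_⟩
  obtain ⟨j, hj⟩ := hcase s hs
  have hmem : (σ ^ j)⁻¹ * s ∈ N := by
    refine ⟨mul_mem (inv_mem (pow_mem hσF j)) hs, ?_⟩
    rw [va_mul, hj, ← hσb' j, va_inv]
  refine ⟨j, hj, ?_⟩
  have h1 := hrN _ hmem
  have h2 := congrArg (σ ^ j) h1
  rw [← AlgEquiv.mul_apply, mul_inv_cancel_left, hσr] at h2
  exact h2

/-- The eigenvector property of the Kummer generator. -/
theorem wc_eigen [CharZero K] (hp : p.Prime) (hf : IsMonHom f) (ht0 : t ≠ 0) (htp : p • t = 0)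
    (hker : ∀ x, onPts f x = 0 ↔ ∃ j : ℕ, x = j • t) (hζ : IsPrimitiveRoot ζ p)
    (L M : IntermediateField K (AlgebraicClosure K)) (hM : M.fixingSubgroup.Normal)
    (htM : ∀ s ∈ M.fixingSubgroup, act B s t = t) (b : Pts B (AlgebraicClosure K))
    (r : AlgebraicClosure K) (hr0 : r ≠ 0)
    (hb : ∀ s ∈ L.fixingSubgroup, act C s (onPts f b) = onPts f b)
    (hr : ∀ s ∈ L.fixingSubgroup, s ∈ M.fixingSubgroup → Mt t ζ s b r) :
    Eigen p L M f (r ^ p) := by
  intro g hg i j hij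
  refine ⟨(g r) ^ j / r ^ i, ?_, ?_⟩
  · apply vn_mem
    intro s hs
    rw [IntermediateField.fixingSubgroup_sup] at hs
    have hh : g⁻¹ * s * g ∈ L.fixingSubgroup ∧ g⁻¹ * s * g ∈ M.fixingSubgroup :=
      ⟨mul_mem (mul_mem (inv_mem hg) hs.1) hg, by
        have h1 := hM.conj_mem s hs.2 g⁻¹
        rwa [inv_inv] at h1⟩
    obtain ⟨k, hk, hk'⟩ := hr _ hh.1 hh.2
    obtain ⟨l, hl, hl'⟩ := hr s hs.1 hs.2
    obtain ⟨c, hc⟩ := wc_cases hf hker L.fixingSubgroup b hb g hg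
    have hζp : ∀ n : ℕ, g (ζ ^ n) = ζ ^ (i * n) := by
      intro n
      rw [hij.1 (ζ ^ n) (by rw [← pow_mul, mul_comm, pow_mul, hζ.pow_eq_one, one_pow]), ← pow_mul,
        mul_comm]
    have h1 : act B s (act B g b) = act B g b + (k * j) • t := by
      have h2 : s * g = g * (g⁻¹ * s * g) := by group
      have h3 : act B g t = j • t := hij.2 t ((hker t).2 ⟨1, (one_nsmul t).symm⟩)
      rw [← va_mul, h2, va_mul, hk, va_add, wp_act_nsmul, h3, ← mul_nsmul, mul_comm j k]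
    rw [hc, va_add, wp_act_nsmul, htM s hs.2, hl] at h1
    have h4 : l • t = (k * j) • t := by
      have h5 : b + l • t + c • t = b + c • t + l • t := by abel
      rw [h5] at h1
      exact add_left_cancel h1
    have h6 : ζ ^ (l * i) = ζ ^ (i * k * j) := by
      apply wp_pow_modEq hζ
      have h7 := (wc_modEq hp ht0 htp h4).mul_right i
      rwa [show k * j * i = i * k * j by ring] at h7
    have h8 : s (g r) = ζ ^ (i * k) * g r := by
      have h2 : s * g = g * (g⁻¹ * s * g) := by group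
      rw [← AlgEquiv.mul_apply, h2, AlgEquiv.mul_apply, hk', map_mul, hζp]
    rw [map_div₀, map_pow, map_pow, h8, hl', mul_pow, mul_pow, ← pow_mul, ← pow_mul, h6,
      mul_div_mul_left _ _ (pow_ne_zero _ (hζ.ne_zero hp.ne_zero))]
  · rw [div_pow, map_pow]
    have h1 : (r ^ i) ^ p ≠ 0 := pow_ne_zero _ (pow_ne_zero _ hr0)
    rw [← pow_mul r p i, mul_comm p i, pow_mul r i p]
    field_simp
    ring

end core

end Pool.Agent.H.MP_ac3185_nt
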