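import Pool.Agent.H.MP_ac3185_nt.helper85.Core

/-! The descent: if the Kummer generator comes from `M`, the point lies in `C(K) + f(B(L))`. -/

set_option autoImplicit false

open CategoryTheory AlgebraicGeometry NumberField IsDedekindDomain
open scoped MonObj

namespace Pool.Agent.H.MP_ac3185_nt

universe u

section arith

theorem wd_bezout {n p : ℕ} (hp : p.Prime) (h : ¬ p ∣ n) : ∃ u v : ℕ, u * n = v * p + 1 := by
  have hcop : n.Coprime p := Nat.Coprime.symm ((Nat.Prime.coprime_iff_not_dvd hp).2 h)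
  obtain ⟨u, hu⟩ := Nat.exists_mul_mod_eq_one_of_coprime hcop hp.one_lt
  refine ⟨u, u * n / p, ?_⟩
  have h1 := Nat.div_add_mod (u * n) p
  have h2 : u * n % p = 1 := by rw [mul_comm]; exact hu.2
  rw [h2] at h1
  rw [mul_comm (u * n / p) p]
  exact h1.symm

theorem wd_inv {n p : ℕ} (hp : p.Prime) (h : ¬ p ∣ n) : ∃ m e : ℕ, 1 + m * n = p * e := by
  obtain ⟨u, v, huv⟩ := wd_bezout hp h
  refine ⟨(p - 1) * u, (p - 1) * v + 1, ?_⟩
  obtain ⟨q, rfl⟩ : ∃ q, p = q + 1 := ⟨p - 1, by have := hp.pos; omega⟩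
  rw [Nat.add_sub_cancel, mul_assoc, huv]
  ring

/-- If `x ^ n` and `x ^ p` lie in a field and `p` does not divide `n`, then `x` lies in it. -/
theorem wd_mem {K : Type u} [Field K] (M : IntermediateField K (AlgebraicClosure K)) {n p : ℕ}
    (hp : p.Prime) (h : ¬ p ∣ n) {x : AlgebraicClosure K} (hx : x ≠ 0) (h1 : x ^ n ∈ M)
    (h2 : x ^ p ∈ M) : x ∈ M := by
  obtain ⟨u, v, huv⟩ := wd_bezout hp h
  have h3 : x = (x ^ n) ^ u / (x ^ p) ^ v := by
    rw [← pow_mul, ← pow_mul, mul_comm n u, huv, mul_comm p v, pow_succ]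
    field_simp
  rw [h3]
  exact div_mem (pow_mem h1 u) (pow_mem h2 v)

theorem wd_root {M : Type*} [Field M] {p : ℕ} (hp : p.Prime) {ζ : M} (hζ : IsPrimitiveRoot ζ p)
    {x y : M} (hy : y ≠ 0) (h : x ^ p = y ^ p) : ∃ k : ℕ, x = ζ ^ k * y := by
  have h1 : (x / y) ^ p = 1 := by
    rw [div_pow, h, div_self (pow_ne_zero _ hy)]
  have : NeZero p := ⟨hp.ne_zero⟩
  obtain ⟨k, -, hk⟩ := hζ.eq_pow_of_pow_eq_one h1
  refine ⟨k, ?_⟩
  rw [hk]
  field_simp

end arith

section desc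

variable {K : Type u} [Field K] [CharZero K] {B C : Over (Spec (.of K))} [GrpObj B] [IsAbVar B]
  [GrpObj C] [IsAbVar C] {f : B ⟶ C} {p : ℕ} {t : Pts B (AlgebraicClosure K)}
  {ζ : AlgebraicClosure K}

omit [CharZero K] in
theorem wd_fsum {H : Subgroup (AlgebraicClosure K ≃ₐ[K] AlgebraicClosure K)}
    [Fintype ((AlgebraicClosure K ≃ₐ[K] AlgebraicClosure K) ⧸ H)] (hf : IsMonHom f)
    (T : (AlgebraicClosure K ≃ₐ[K] AlgebraicClosure K) ⧸ H →
      AlgebraicClosure K ≃ₐ[K] AlgebraicClosure K) (x : Pts B (AlgebraicClosure K)) :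
    onPts f (∑ q, act B (T q) x) = ∑ q, act C (T q) (onPts f x) := by
  have h1 : vhHom f hf (∑ q, act B (T q) x) = ∑ q, vhHom f hf (act B (T q) x) :=
    map_sum (vhHom f hf) _ _
  have h2 : ∀ y, vhHom f hf y = onPts f y := fun y => rfl
  rw [h2] at h1
  rw [h1]
  refine Finset.sum_congr rfl fun q _ => ?_
  rw [h2, vh_act]

omit [CharZero K] in
theorem wd_fnsmul (hf : IsMonHom f) (m : ℕ) (x : Pts B (AlgebraicClosure K)) :
    onPts f (m • x) = m • onPts f x := map_nsmul (vhHom f hf) m x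

omit [CharZero K] in
/-- `b' = b + m Tr(b)` and `ρ = r N(r) ^ m`. -/
theorem wd_match {H N : Subgroup (AlgebraicClosure K ≃ₐ[K] AlgebraicClosure K)}
    [Fintype ((AlgebraicClosure K ≃ₐ[K] AlgebraicClosure K) ⧸ H)]
    (T : (AlgebraicClosure K ≃ₐ[K] AlgebraicClosure K) ⧸ H →
      AlgebraicClosure K ≃ₐ[K] AlgebraicClosure K)
    (hT : ∀ q, (T q : (AlgebraicClosure K ≃ₐ[K] AlgebraicClosure K) ⧸ H) = q ∧ T q ∈ N)
    (htN : ∀ s ∈ N, act B s t = t) (hζN : ∀ s ∈ N, s ζ = ζ)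
    (x : Pts B (AlgebraicClosure K)) (r : AlgebraicClosure K)
    (h : ∀ s ∈ H, s ∈ N → Mt t ζ s x r) (m : ℕ) :
    ∀ s ∈ H, s ∈ N → Mt t ζ s (x + m • ∑ q, act B (T q) x) (r * (∏ q, (T q) r) ^ m) :=
  fun s hs hs' => wm_add (h s hs hs') (wm_smul (wm_trace T hT htN hζN x r h s hs') m)

theorem wd_main (hp : p.Prime) (hf : IsMonHom f) (ht0 : t ≠ 0) (htp : p • t = 0)
    (hker : ∀ x, onPts f x = 0 ↔ ∃ j : ℕ, x = j • t) (hζ : IsPrimitiveRoot ζ p)
    (L M : IntermediateField K (AlgebraicClosure K)) [FiniteDimensional K L]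
    [FiniteDimensional K M] (hpL : ¬ p ∣ Module.finrank K L)
    (hpM : ¬ p ∣ Module.finrank K M)
    [Fintype ((AlgebraicClosure K ≃ₐ[K] AlgebraicClosure K) ⧸ L.fixingSubgroup)]
    (T : (AlgebraicClosure K ≃ₐ[K] AlgebraicClosure K) ⧸ L.fixingSubgroup →
      AlgebraicClosure K ≃ₐ[K] AlgebraicClosure K)
    (hT : ∀ q, (T q : (AlgebraicClosure K ≃ₐ[K] AlgebraicClosure K) ⧸ L.fixingSubgroup) = q ∧
      T q ∈ M.fixingSubgroup)
    (hcop : ∀ s : AlgebraicClosure K ≃ₐ[K] AlgebraicClosure K,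
      ∃ g ∈ L.fixingSubgroup, g⁻¹ * s ∈ M.fixingSubgroup)
    (htM : ∀ s ∈ M.fixingSubgroup, act B s t = t) (hζM : ζ ∈ M)
    (b : Pts B (AlgebraicClosure K))
    (hb : ∀ s ∈ L.fixingSubgroup, act C s (onPts f b) = onPts f b)
    (r : AlgebraicClosure K) (hr0 : r ≠ 0)
    (hr : ∀ s ∈ L.fixingSubgroup, s ∈ M.fixingSubgroup → Mt t ζ s b r)
    (m e : ℕ) (hme : 1 + m * Module.finrank K L = p * e)
    (b' : Pts B (AlgebraicClosure K)) (hb' : b' = b + m • ∑ q, act B (T q) b)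
    (ρ : AlgebraicClosure K) (hρ : ρ = r * (∏ q, (T q) r) ^ m)
    (hcl : ∃ b₀ ∈ M, ∃ z ∈ L ⊔ M, ρ ^ p = b₀ * z ^ p) :
    ∃ y₀ x, (∀ s, act C s y₀ = y₀) ∧ (∀ s ∈ L.fixingSubgroup, act B s x = x) ∧
      onPts f b = y₀ + onPts f x := by
  classical
  have hζN : ∀ s ∈ M.fixingSubgroup, s ζ = ζ := fun s hs => vn_fix M hζM hs
  have hmt : ∀ s ∈ L.fixingSubgroup, s ∈ M.fixingSubgroup → Mt t ζ s b' ρ := by
    rw [hb', hρ]
    exact wd_match T hT htM hζN b r hr m
  have hρ0 : ρ ≠ 0 := by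
    rw [hρ]
    refine mul_ne_zero hr0 (pow_ne_zero _ (Finset.prod_ne_zero_iff.2 fun q _ => ?_))
    intro h
    exact hr0 (by simpa using h)
  have hfb' : onPts f b' = onPts f b + m • ∑ q, act C (T q) (onPts f b) := by
    rw [hb', vh_add f hf, wd_fnsmul hf, wd_fsum hf]
  have hTrP : ∀ s, act C s (∑ q, act C (T q) (onPts f b)) = ∑ q, act C (T q) (onPts f b) :=
    fun s => wf_sum T _ s fun q => hb _ (wp_perm _ T (fun q => (hT q).1) s q)
  have hb'f : ∀ s ∈ L.fixingSubgroup, act C s (onPts f b') = onPts f b' := by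
    intro s hs
    rw [hfb', va_add, wp_act_nsmul, hTrP, hb s hs]
  obtain ⟨b₀, hb₀, z, hz, hbz⟩ := hcl
  have hz0 : z ≠ 0 := by
    rintro rfl
    rw [zero_pow hp.ne_zero, mul_zero] at hbz
    exact hρ0 (pow_eq_zero_iff hp.ne_zero |>.1 hbz)
  -- the norm of `ρ`
  have htrtr : ∃ J : ℕ, ∑ q, act B (T q) (∑ q', act B (T q') b) =
      Module.finrank K L • (∑ q', act B (T q') b) + J • t := by
    have h1 : ∀ q, ∃ j : ℕ, act B (T q) (∑ q', act B (T q') b) =
        (∑ q', act B (T q') b) + j • t := by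
      intro q
      obtain ⟨j, hj, -⟩ := wm_trace T hT htM hζN b r hr (T q) (hT q).2
      exact ⟨j, hj⟩
    choose j hj using h1
    refine ⟨∑ q, j q, ?_⟩
    rw [Finset.sum_congr rfl fun q _ => hj q, Finset.sum_add_distrib, Finset.sum_const,
      Finset.card_univ, vn_card, Finset.sum_smul]
  obtain ⟨J, hJ⟩ := htrtr
  have htrb' : ∑ q, act B (T q) b' = (p * e) • (∑ q, act B (T q) b) + (m * J) • t := by
    have h1 : ∑ q, act B (T q) b' = ∑ q, act B (T q) b +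
        m • ∑ q, act B (T q) (∑ q', act B (T q') b) := by
      rw [Finset.smul_sum, ← Finset.sum_add_distrib]
      refine Finset.sum_congr rfl fun q _ => ?_
      rw [hb', va_add, wp_act_nsmul]
    rw [h1, hJ, ← hme, nsmul_add, add_nsmul, one_nsmul, mul_nsmul', mul_nsmul', add_assoc]
  have hfixtr : ∀ s ∈ M.fixingSubgroup, act B s (∑ q, act B (T q) b') = ∑ q, act B (T q) b' := by
    intro s hs
    obtain ⟨j, hj, -⟩ := wm_trace T hT htM hζN b r hr s hs
    rw [htrb', va_add, wp_act_nsmul, wp_act_nsmul, htM s hs, hj, nsmul_add]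
    have h1 : (p * e) • j • t = 0 := by
      rw [← mul_nsmul', mul_assoc, mul_comm p, mul_nsmul', htp, nsmul_zero]
    rw [h1, add_zero]
  have hnm : (∏ q, (T q) ρ) ∈ M := by
    apply vn_mem
    intro s hs
    have h1 := wm_trace T hT htM hζN b' ρ hmt s hs
    refine (wc_iff hp ht0 htp hζ ?_ h1).1 (hfixtr s hs)
    refine Finset.prod_ne_zero_iff.2 fun q _ => ?_
    intro h
    exact hρ0 (by simpa using h)
  have hnz : (∏ q, (T q) z) ∈ M := by
    apply vn_mem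
    intro s hs
    refine wf_prod T z s fun q => ?_
    refine vn_fix (L ⊔ M) hz ?_
    have h1 : (T (s • q))⁻¹ * s * T q ∈ M.fixingSubgroup :=
      mul_mem (mul_mem (inv_mem (hT _).2) hs) (hT q).2
    rw [IntermediateField.fixingSubgroup_sup]
    exact ⟨wp_perm _ T (fun q => (hT q).1) s q, h1⟩
  set β := ρ / z with hβ
  have hβ0 : β ≠ 0 := div_ne_zero hρ0 hz0
  have hβz : ρ = β * z := by
    rw [hβ]
    field_simp
  have hβp : β ^ p = b₀ := by
    rw [hβ, div_pow, hbz, mul_div_assoc, div_self (pow_ne_zero _ hz0), mul_one]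
  have hTβ : ∀ q, ∃ k : ℕ, (T q) β = ζ ^ k * β := by
    intro q
    apply wd_root hp hζ hβ0
    rw [← map_pow, hβp]
    exact vn_fix M hb₀ (hT q).2
  choose k hk using hTβ
  have hβn : β ^ Module.finrank K L ∈ M := by
    have h1 : (∏ q, (T q) ρ) = (∏ q, (T q) β) * ∏ q, (T q) z := by
      rw [← Finset.prod_mul_distrib]
      refine Finset.prod_congr rfl fun q _ => ?_
      rw [hβz, map_mul]
    have h2 : (∏ q, (T q) β) = ζ ^ (∑ q, k q) * β ^ Module.finrank K L := by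
      rw [Finset.prod_congr rfl fun q _ => hk q, Finset.prod_mul_distrib,
        Finset.prod_pow_eq_pow_sum, Finset.prod_const, Finset.card_univ, vn_card]
    have hnz0 : (∏ q, (T q) z) ≠ 0 := by
      refine Finset.prod_ne_zero_iff.2 fun q _ => ?_
      intro h
      exact hz0 (by simpa using h)
    have hζ0 : ζ ≠ 0 := hζ.ne_zero hp.ne_zero
    have h3 : β ^ Module.finrank K L = (∏ q, (T q) ρ) / (∏ q, (T q) z) / ζ ^ (∑ q, k q) := by
      rw [h1, h2]
      field_simp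
    rw [h3]
    exact div_mem (div_mem hnm hnz) (pow_mem hζM _)
  have hβM : β ∈ M := wd_mem M hp hpL hβ0 hβn (by rw [hβp]; exact hb₀)
  have hρLM : ρ ∈ L ⊔ M := by
    rw [hβz]
    exact mul_mem ((le_sup_right : M ≤ L ⊔ M) hβM) hz
  have hfix : ∀ s ∈ L.fixingSubgroup, s ∈ M.fixingSubgroup → act B s b' = b' := by
    intro s hs hs'
    refine (wc_iff hp ht0 htp hζ hρ0 (hmt s hs hs')).2 ?_
    refine vn_fix (L ⊔ M) hρLM ?_
    rw [IntermediateField.fixingSubgroup_sup]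
    exact ⟨hs, hs'⟩
  -- descent from `L M` to `L`
  have hfM := vn_finiteIndex M
  let _ := M.fixingSubgroup.fintypeQuotientOfFiniteIndex
  obtain ⟨T', hT'⟩ := wp_reps M.fixingSubgroup L.fixingSubgroup hcop
  have hx1 : ∀ s ∈ L.fixingSubgroup, act B s (∑ q, act B (T' q) b') = ∑ q, act B (T' q) b' := by
    intro s hs
    refine wf_sum T' b' s fun q => ?_
    exact hfix _ (mul_mem (mul_mem (inv_mem (hT' _).2) hs) (hT' q).2)
      (wp_perm _ T' (fun q => (hT' q).1) s q)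
  have hfx1 : onPts f (∑ q, act B (T' q) b') = Module.finrank K M • onPts f b' := by
    rw [wd_fsum hf, Finset.sum_congr rfl fun q _ => hb'f (T' q) (hT' q).2, Finset.sum_const,
      Finset.card_univ, vn_card]
  have hx2 : ∀ s ∈ L.fixingSubgroup, act B s (p • b') = p • b' := by
    intro s hs
    obtain ⟨c, hc⟩ := wc_cases hf hker L.fixingSubgroup b' hb'f s hs
    rw [wp_act_nsmul, hc, nsmul_add, ← mul_nsmul', mul_comm p c, mul_nsmul', htp, nsmul_zero,
      add_zero]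
  obtain ⟨u, v, huv⟩ := wd_bezout hp hpM
  refine ⟨-(m • ∑ q, act C (T q) (onPts f b)), u • (∑ q, act B (T' q) b') - v • (p • b'),
    fun s => ?_, fun s hs => ?_, ?_⟩
  · have h1 : act C s (-(m • ∑ q, act C (T q) (onPts f b))) =
        -act C s (m • ∑ q, act C (T q) (onPts f b)) := map_neg (galHom C s) _
    rw [h1, wp_act_nsmul, hTrP]
  · rw [va_sub, wp_act_nsmul, wp_act_nsmul, hx1 s hs, hx2 s hs]
  · rw [vh_sub f hf, wd_fnsmul hf, wd_fnsmul hf, wd_fnsmul hf, hfx1, ← mul_nsmul', ← mul_nsmul',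
      huv, add_nsmul, one_nsmul, hfb']
    abel

end desc

end Pool.Agent.H.MP_ac3185_nt
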