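import Pool.Agent.H.MP_ac3185_nt.V.Unit
import Pool.Agent.H.MP_ac3185_nt.helper85.Desc

/-! Local properties of the Kummer generator. -/

set_option autoImplicit false

open CategoryTheory AlgebraicGeometry NumberField IsDedekindDomain
open scoped MonObj

namespace Pool.Agent.H.MP_ac3185_nt

universe u

section field

variable {K : Type u} [Field K]

theorem wv_coe_mul (x y : 𝓞 (AlgebraicClosure K)) :
    ((x * y : 𝓞 (AlgebraicClosure K)) : AlgebraicClosure K) = x * y := rfl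

theorem wv_coe_gal (s : AlgebraicClosure K ≃ₐ[K] AlgebraicClosure K)
    (x : 𝓞 (AlgebraicClosure K)) :
    ((galInt s x : 𝓞 (AlgebraicClosure K)) : AlgebraicClosure K) = s x := rfl

/-- If `1 - ξ` lies in the ideal `𝔓` for a primitive `p`-th root of unity `ξ`, then `p ∈ 𝔓`. -/
theorem wv_prim {R : Type*} [CommRing R] {p : ℕ} {ξ : R}
    (hξ : ∑ i ∈ Finset.range p, ξ ^ i = 0) (𝔓 : Ideal R) (h : 1 - ξ ∈ 𝔓) : (p : R) ∈ 𝔓 := by
  have h1 : (p : R) = ∑ i ∈ Finset.range p, (1 ^ i - ξ ^ i) := by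
    rw [Finset.sum_sub_distrib, hξ]
    simp
  rw [h1]
  refine Ideal.sum_mem _ fun i _ => ?_
  exact Ideal.mem_of_dvd _ (sub_dvd_pow_sub_pow 1 ξ i) h

/-- If the valuation of `a` is divisible by `p` at a place which does not divide `p`, then the
extension `F(a ^ (1/p)) / F` is unramified at this place. -/
theorem wv_unr {p : ℕ} (hp : p.Prime) {ζ : AlgebraicClosure K} (hζ : IsPrimitiveRoot ζ p)
    (F : IntermediateField K (AlgebraicClosure K))
    (𝔓 : Ideal (𝓞 (AlgebraicClosure K))) (h𝔓 : FinPrime 𝔓)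
    (hpP : (p : 𝓞 (AlgebraicClosure K)) ∉ 𝔓) (a : AlgebraicClosure K) (haF : a ∈ F)
    (ha : ValRoot p F 𝔓 a) : UnrRoot p F 𝔓 a := by
  obtain ⟨b, hbF, hb, x, y, hx, hy, hxy⟩ := ha
  intro s hsI hsF z hz
  have hpr := h𝔓.1
  by_cases hz0 : z = 0
  · rw [hz0, map_zero]
  have hsa : s a = a := vn_fix F haF hsF
  have hsb : s b = b := vn_fix F hbF hsF
  obtain ⟨j, hj⟩ := wd_root hp hζ hz0 (by rw [← map_pow, hz, hsa] : (s z) ^ p = z ^ p)
  have hw : UnitAt 𝔓 ((z / b) ^ p) := by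
    refine ⟨x, y, hx, hy, ?_⟩
    rw [div_pow, hz, div_mul_eq_mul_div, hxy]
    field_simp
  obtain ⟨α, β, hα, hβ, hαβ⟩ := UnitAt.of_pow hp.pos hw
  by_cases hone : ζ ^ j = 1
  · rw [hj, hone, one_mul]
  exfalso
  have hint : IsIntegral ℤ (ζ ^ j) := by
    refine IsIntegral.of_pow hp.pos ?_
    rw [← pow_mul, mul_comm, pow_mul, hζ.pow_eq_one, one_pow]
    exact isIntegral_one
  let ξ : 𝓞 (AlgebraicClosure K) := ⟨ζ ^ j, hint⟩
  have hξc : (ξ : AlgebraicClosure K) = ζ ^ j := rfl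
  have hprim : IsPrimitiveRoot (ζ ^ j) p := by
    apply hζ.pow_of_coprime
    refine Nat.Coprime.symm ((Nat.Prime.coprime_iff_not_dvd hp).2 fun hd => hone ?_)
    exact (hζ.pow_eq_one_iff_dvd j).2 hd
  have hsum : ∑ i ∈ Finset.range p, ξ ^ i = 0 := by
    apply RingOfIntegers.ext
    have h1 : ((∑ i ∈ Finset.range p, ξ ^ i : 𝓞 (AlgebraicClosure K)) : AlgebraicClosure K) =
        ∑ i ∈ Finset.range p, (ζ ^ j) ^ i := by
      have h2 := map_sum (algebraMap (𝓞 (AlgebraicClosure K)) (AlgebraicClosure K))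
        (fun i => ξ ^ i) (Finset.range p)
      refine Eq.trans h2 (Finset.sum_congr rfl fun i _ => ?_)
      rw [map_pow]
      rfl
    rw [h1, hprim.geom_sum_eq_zero hp.one_lt]
    rfl
  apply hpP
  refine wv_prim hsum 𝔓 ?_
  have hcong : galInt s α * β = ξ * (α * galInt s β) := by
    apply RingOfIntegers.ext
    rw [wv_coe_mul, wv_coe_mul, wv_coe_mul, wv_coe_gal, wv_coe_gal, hξc, ← hαβ, map_mul, map_div₀,
      hj, hsb]
    ring
  have h1 : (1 - ξ) * (α * β) = -((galInt s α - α) * β) + ξ * (α * (galInt s β - β)) := by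
    linear_combination hcong
  have h2 : (1 - ξ) * (α * β) ∈ 𝔓 := by
    rw [h1]
    exact add_mem (neg_mem (Ideal.mul_mem_right _ _ (hsI α)))
      (Ideal.mul_mem_left _ _ (Ideal.mul_mem_left _ _ (hsI β)))
  rcases hpr.mem_or_mem h2 with h3 | h3
  · exact h3
  · rcases hpr.mem_or_mem h3 with h4 | h4
    · exact absurd h4 hα
    · exact absurd h4 hβ

variable {B C : Over (Spec (.of K))} [GrpObj B] [IsAbVar B] [GrpObj C] [IsAbVar C] {f : B ⟶ C}
  {p : ℕ} {t : Pts B (AlgebraicClosure K)} {ζ : AlgebraicClosure K}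

/-- At the places where the kernel is etale over `M`, the Kummer extension is unramified. -/
theorem wv_etale (hp : p.Prime) (hf : IsMonHom f) (ht0 : t ≠ 0) (htp : p • t = 0)
    (hζ : IsPrimitiveRoot ζ p) (L M : IntermediateField K (AlgebraicClosure K)) (hζM : ζ ∈ M)
    (b : Pts B (AlgebraicClosure K)) (ρ : AlgebraicClosure K) (hρ0 : ρ ≠ 0)
    (hb : ∀ s ∈ L.fixingSubgroup, act C s (onPts f b) = onPts f b)
    (hr : ∀ s ∈ L.fixingSubgroup, s ∈ M.fixingSubgroup → Mt t ζ s b ρ)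
    (𝔓 : Ideal (𝓞 (AlgebraicClosure K))) (h𝔓 : EtaleOver M f 𝔓) :
    UnrRoot p (L ⊔ M) 𝔓 (ρ ^ p) := by
  obtain ⟨R, _, r, hr1, hr2⟩ := h𝔓
  intro s hs hsF z hz
  rw [IntermediateField.fixingSubgroup_sup] at hsF
  have h1 : act B s b - b = 0 := by
    apply hr2
    · rw [vh_sub f hf, ← vh_act, hb s hsF.1, sub_self]
    · rw [map_sub, hr1 s hs hsF.2, sub_self]
  have h2 : s ρ = ρ := (wc_iff hp ht0 htp hζ hρ0 (hr s hsF.1 hsF.2)).1 (sub_eq_zero.1 h1)
  obtain ⟨k, hk⟩ := wd_root hp hζ hρ0 hz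
  rw [hk, map_mul, map_pow, h2, vn_fix M hζM hsF.2]

/-- `L M` is stable under `Gal(Kbar/L)`. -/
theorem wv_stable [CharZero K] (L M : IntermediateField K (AlgebraicClosure K))
    (hM : M.fixingSubgroup.Normal)
    {x : AlgebraicClosure K} (hx : x ∈ L ⊔ M) {g : AlgebraicClosure K ≃ₐ[K] AlgebraicClosure K}
    (hg : g ∈ L.fixingSubgroup) : g x ∈ L ⊔ M := by
  apply vn_mem
  intro s hs
  rw [IntermediateField.fixingSubgroup_sup] at hs
  have h1 : g⁻¹ * s * g ∈ (L ⊔ M).fixingSubgroup := by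
    have h0 : g⁻¹ * s * g ∈ L.fixingSubgroup := mul_mem (mul_mem (inv_mem hg) hs.1) hg
    have h1 := hM.conj_mem s hs.2 g⁻¹
    rw [inv_inv] at h1
    rw [IntermediateField.fixingSubgroup_sup]
    exact ⟨h0, h1⟩
  have h2 := vn_fix (L ⊔ M) hx h1
  have h3 := congrArg g h2
  rw [← AlgEquiv.mul_apply] at h3
  have h4 : g * (g⁻¹ * s * g) = s * g := by group
  rwa [h4, AlgEquiv.mul_apply] at h3

end field

section numberField

variable {K : Type u} [Field K] [NumberField K] {B C : Over (Spec (.of K))} [GrpObj B] [IsAbVar B]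
  [GrpObj C] [IsAbVar C] {f : B ⟶ C} {p : ℕ} {t : Pts B (AlgebraicClosure K)}
  {ζ : AlgebraicClosure K}

/-- The conjugate of `a` by `T` in `Gal(Kbar/M)` is `a z ^ p` up to a unit at `𝔓`. -/
theorem wv_conj_unit (hp : p.Prime) (hker : ∀ x, onPts f x = 0 ↔ ∃ j : ℕ, x = j • t)
    (hζ : IsPrimitiveRoot ζ p)
    (L M : IntermediateField K (AlgebraicClosure K)) (hM : M.fixingSubgroup.Normal)
    (hμ : ∀ z : AlgebraicClosure K, z ^ p = 1 → z ∈ M)
    (htM : ∀ s ∈ M.fixingSubgroup, act B s t = t)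
    (a : AlgebraicClosure K) (ha0 : a ≠ 0) (haLM : a ∈ L ⊔ M) (ha : Eigen p L M f a)
    {𝔓 : Ideal (𝓞 (AlgebraicClosure K))} (h𝔓 : FinPrime 𝔓) (hone : OnePlaceFor p L f 𝔓)
    (T : AlgebraicClosure K ≃ₐ[K] AlgebraicClosure K) (hT : T ∈ M.fixingSubgroup) :
    ∃ z ∈ L ⊔ M, z ≠ 0 ∧ UnitAt 𝔓 (T a / (a * z ^ p)) := by
  have hP : 𝔓.IsPrime := h𝔓.1
  obtain ⟨g₀, hg₀D, hg₀L, i, hi⟩ := hone T
  set g := g₀⁻¹ * T with hg
  have hgi : g⁻¹ ∈ L.fixingSubgroup := inv_mem hg₀L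
  have hact : ActsBy p f g⁻¹ i i := by
    constructor
    · intro z hz
      have h1 : (g⁻¹ : AlgebraicClosure K ≃ₐ[K] AlgebraicClosure K) = T⁻¹ * g₀ := by
        rw [hg]; group
      rw [h1, AlgEquiv.mul_apply, hi.1 z hz]
      exact vn_fix M (hμ _ (by rw [← pow_mul, mul_comm, pow_mul, hz, one_pow])) (inv_mem hT)
    · intro x hx
      have h1 : (g⁻¹ : AlgebraicClosure K ≃ₐ[K] AlgebraicClosure K) = T⁻¹ * g₀ := by
        rw [hg]; group
      obtain ⟨j, rfl⟩ := (hker x).1 hx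
      rw [h1, va_mul, hi.2 _ hx, wp_act_nsmul, wp_act_nsmul, htM _ (inv_mem hT)]
  have hip : ¬ p ∣ i := by
    intro hd
    have h1 : g₀ ζ = ζ ^ i := hi.1 ζ hζ.pow_eq_one
    rw [(hζ.pow_eq_one_iff_dvd i).2 hd] at h1
    have h2 : ζ = 1 := by
      apply g₀.injective
      rw [h1, map_one]
    exact hζ.ne_one hp.one_lt h2
  obtain ⟨z, hz, hza⟩ := ha g⁻¹ hgi i i hact
  obtain ⟨u, v, huv⟩ := wd_bezout hp hip
  set c := g⁻¹ a with hc
  have hc0 : c ≠ 0 := by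
    intro h
    exact ha0 (by simpa [hc] using h)
  have hcLM : c ∈ L ⊔ M := wv_stable L M hM haLM hgi
  have hz0 : z ≠ 0 := by
    rintro rfl
    rw [zero_pow hp.ne_zero, mul_zero] at hza
    exact hc0 (pow_eq_zero_iff (n := i) (by rintro rfl; exact hip (dvd_zero p)) |>.1 hza)
  set z₁ := a ^ v * z ^ u / c ^ v with hz₁
  have hz₁LM : z₁ ∈ L ⊔ M := div_mem (mul_mem (pow_mem haLM v) (pow_mem hz u)) (pow_mem hcLM v)
  have hz₁0 : z₁ ≠ 0 :=
    div_ne_zero (mul_ne_zero (pow_ne_zero _ ha0) (pow_ne_zero _ hz0)) (pow_ne_zero _ hc0)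
  have hcz : c = a * z₁ ^ p := by
    have h1 : c ^ (u * i) = a ^ (u * i) * (z ^ u) ^ p := by
      rw [mul_comm u i, pow_mul, hza, mul_pow, ← pow_mul, ← pow_mul, ← pow_mul, mul_comm p u]
    rw [huv, pow_succ, pow_succ] at h1
    rw [hz₁, div_pow, mul_pow, ← pow_mul, ← pow_mul]
    have h2 : c ^ (v * p) ≠ 0 := pow_ne_zero _ hc0
    field_simp
    rw [← pow_mul] at h1
    linear_combination h1
  set z₂ := (g z₁)⁻¹ with hz₂
  have hz₂LM : z₂ ∈ L ⊔ M := inv_mem (wv_stable L M hM hz₁LM hg₀L)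
  have hgz0 : g z₁ ≠ 0 := by
    intro h
    exact hz₁0 (by simpa using h)
  have hz₂0 : z₂ ≠ 0 := inv_ne_zero hgz0
  have hga : g a = a * z₂ ^ p := by
    have h1 := congrArg g hcz
    rw [hc, ← AlgEquiv.mul_apply, mul_inv_cancel, AlgEquiv.one_apply, map_mul, map_pow] at h1
    rw [hz₂, inv_pow]
    field_simp
    exact h1.symm
  have hTa : T a = g₀ a * (g₀ z₂) ^ p := by
    have h1 : T = g₀ * g := by rw [hg]; group
    rw [h1, AlgEquiv.mul_apply, hga, map_mul, map_pow]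
  refine ⟨z₂, hz₂LM, hz₂0, ?_⟩
  have h1 : T a / (a * z₂ ^ p) = (g₀ a / a) * (g₀ z₂ / z₂) ^ p := by
    rw [hTa, div_pow]
    field_simp
  rw [h1]
  exact (vu_unitAt h𝔓 hg₀D ha0).mul ((vu_unitAt h𝔓 hg₀D hz₂0).pow p)

/-- At the places satisfying the condition `OnePlaceFor` the valuation of the Kummer generator
is divisible by `p`. -/
theorem wv_one (hp : p.Prime) (hker : ∀ x, onPts f x = 0 ↔ ∃ j : ℕ, x = j • t)
    (hζ : IsPrimitiveRoot ζ p)
    (L M : IntermediateField K (AlgebraicClosure K)) [FiniteDimensional K L]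
    (hM : M.fixingSubgroup.Normal)
    (hμ : ∀ z : AlgebraicClosure K, z ^ p = 1 → z ∈ M)
    (htM : ∀ s ∈ M.fixingSubgroup, act B s t = t)
    [Fintype ((AlgebraicClosure K ≃ₐ[K] AlgebraicClosure K) ⧸ L.fixingSubgroup)]
    (T : (AlgebraicClosure K ≃ₐ[K] AlgebraicClosure K) ⧸ L.fixingSubgroup →
      AlgebraicClosure K ≃ₐ[K] AlgebraicClosure K)
    (hT : ∀ q, (T q : (AlgebraicClosure K ≃ₐ[K] AlgebraicClosure K) ⧸ L.fixingSubgroup) = q ∧
      T q ∈ M.fixingSubgroup)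
    (r : AlgebraicClosure K) (hr0 : r ≠ 0) (haLM : r ^ p ∈ L ⊔ M)
    (ha : Eigen p L M f (r ^ p)) (m e : ℕ) (hme : 1 + m * Module.finrank K L = p * e)
    {𝔓 : Ideal (𝓞 (AlgebraicClosure K))} (h𝔓 : FinPrime 𝔓) (hone : OnePlaceFor p L f 𝔓) :
    ValRoot p (L ⊔ M) 𝔓 ((r * (∏ q, (T q) r) ^ m) ^ p) := by
  have hP : 𝔓.IsPrime := h𝔓.1
  have ha0 : r ^ p ≠ 0 := pow_ne_zero _ hr0
  have h1 : ∀ q, ∃ z ∈ L ⊔ M, z ≠ 0 ∧ UnitAt 𝔓 ((T q) (r ^ p) / (r ^ p * z ^ p)) := fun q =>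
    wv_conj_unit hp hker hζ L M hM hμ htM (r ^ p) ha0 haLM ha h𝔓 hone (T q) (hT q).2
  choose z hz hz0 hzu using h1
  have h2 := UnitAt.prod (𝔔 := 𝔓) Finset.univ _ (fun q _ => hzu q)
  have h3 : (∏ q, (T q) (r ^ p) / (r ^ p * (z q) ^ p)) =
      (∏ q, (T q) r) ^ p / ((r ^ p) ^ Module.finrank K L * (∏ q, z q) ^ p) := by
    rw [Finset.prod_div_distrib, Finset.prod_mul_distrib, Finset.prod_const, Finset.card_univ,
      vn_card, Finset.prod_pow]
    congr 1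
    rw [← Finset.prod_pow]
    exact Finset.prod_congr rfl fun q _ => map_pow _ _ _
  rw [h3] at h2
  obtain ⟨x, y, hx, hy, hxy⟩ := h2.pow m
  have hZ0 : (∏ q, z q) ≠ 0 := Finset.prod_ne_zero_iff.2 fun q _ => hz0 q
  have hZ : (∏ q, z q) ∈ L ⊔ M := prod_mem fun q _ => hz q
  refine ⟨(r ^ p) ^ e * (∏ q, z q) ^ m, mul_mem (pow_mem haLM e) (pow_mem hZ m),
    mul_ne_zero (pow_ne_zero _ ha0) (pow_ne_zero _ hZ0), x, y, hx, hy, ?_⟩
  rw [← hxy]
  have h4 : (r ^ p) ^ Module.finrank K L ≠ 0 := pow_ne_zero _ ha0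
  have h5 : (∏ q, z q) ^ p ≠ 0 := pow_ne_zero _ hZ0
  have h6 : ((r ^ p) ^ e * (∏ q, z q) ^ m) ^ p =
      r ^ p * (((r ^ p) ^ Module.finrank K L * (∏ q, z q) ^ p) ^ m) := by
    rw [mul_pow, mul_pow, ← pow_mul (r ^ p) e p, mul_comm e p, ← hme, pow_add, pow_one,
      ← pow_mul (r ^ p) _ m, mul_comm (Module.finrank K L) m, ← pow_mul (∏ q, z q) m p,
      ← pow_mul (∏ q, z q) p m, mul_comm m p]
    ring
  rw [h6, div_pow, mul_pow, ← pow_mul (∏ q, (T q) r) m p, ← pow_mul (∏ q, (T q) r) p m,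
    mul_comm m p]
  field_simp

/-- The Kummer generator is positive at the real places if `f` has real fibres. -/
theorem wv_pos (hp : p.Prime) (ht0 : t ≠ 0) (htp : p • t = 0)
    (hζ : IsPrimitiveRoot ζ p) (L M : IntermediateField K (AlgebraicClosure K)) (hζM : ζ ∈ M)
    (b : Pts B (AlgebraicClosure K)) (ρ : AlgebraicClosure K) (hρ0 : ρ ≠ 0)
    (hb : ∀ s ∈ L.fixingSubgroup, act C s (onPts f b) = onPts f b)
    (hr : ∀ s ∈ L.fixingSubgroup, s ∈ M.fixingSubgroup → Mt t ζ s b ρ) (hreal : RealFibres f) :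
    PosAtReal (L ⊔ M) (ρ ^ p) := by
  intro e he
  obtain ⟨s, hs⟩ : ∃ s : AlgebraicClosure K ≃ₐ[K] AlgebraicClosure K,
      ∀ z, e (s z) = starRingEnd ℂ (e z) := by
    let _ : Algebra (AlgebraicClosure K) ℂ := e.toAlgebra
    let _ : Algebra K ℂ := (e.comp (algebraMap K (AlgebraicClosure K))).toAlgebra
    have _ : IsScalarTower K (AlgebraicClosure K) ℂ := IsScalarTower.of_algebraMap_eq fun x => rfl
    let ψ : AlgebraicClosure K →ₐ[K] ℂ :=
      { (starRingEnd ℂ).comp e with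
        commutes' := fun x => he _ (IntermediateField.algebraMap_mem _ x) }
    let φ : AlgebraicClosure K →ₐ[K] AlgebraicClosure K := ψ.restrictNormal (AlgebraicClosure K)
    refine ⟨AlgEquiv.ofBijective φ (Algebra.IsAlgebraic.algHom_bijective φ), fun z => ?_⟩
    exact AlgHom.restrictNormal_commutes ψ (AlgebraicClosure K) z
  have hsF : s ∈ (L ⊔ M).fixingSubgroup := by
    rw [IntermediateField.mem_fixingSubgroup_iff]
    intro x hx
    apply e.injective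
    rw [hs, he x hx]
  rw [IntermediateField.fixingSubgroup_sup] at hsF
  have h1 : act B s b = b := hreal e s hs b (hb s hsF.1)
  have h2 : s ρ = ρ := (wc_iff hp ht0 htp hζ hρ0 (hr s hsF.1 hsF.2)).1 h1
  have hre : ∀ x, s x = x → ∃ c : ℝ, e x = c := by
    intro x hx
    have h3 := hs x
    rw [hx] at h3
    exact ⟨(e x).re, (Complex.conj_eq_iff_re.1 h3.symm).symm⟩
  obtain ⟨c, hc⟩ := hre ρ h2
  have hc0 : c ≠ 0 := by
    rintro rfl
    rw [Complex.ofReal_zero] at hc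
    exact hρ0 ((map_eq_zero e).1 hc)
  rcases hp.eq_two_or_odd' with rfl | hodd
  · refine ⟨c ^ 2, by positivity, ?_⟩
    rw [map_pow, hc]
    push_cast
    ring
  · exfalso
    obtain ⟨d, hd⟩ := hre ζ (vn_fix M hζM hsF.2)
    have h3 : d ^ p = 1 := by
      have h4 : (e ζ) ^ p = 1 := by rw [← map_pow, hζ.pow_eq_one, map_one]
      rw [hd] at h4
      exact_mod_cast h4
    have h5 : d = 1 := by
      have h6 : d ^ p = 1 ^ p := by rw [h3, one_pow]
      exact hodd.strictMono_pow.injective h6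
    rw [h5, Complex.ofReal_one] at hd
    exact hζ.ne_one hp.one_lt (e.injective (by rw [hd, map_one]))

end numberField

end Pool.Agent.H.MP_ac3185_nt
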